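import Pool.Agent.J4.H50.EG.Stm
import Pool.Agent.N879.QM.Zr

set_option autoImplicit false
set_option maxHeartbeats 2000000

/-! Zeta values replaced by Dirichlet polynomials, general local densities. -/

namespace Pool.Agent.J4.H50.EG

open Complex hiding im
open Filter Topology MeasureTheory Set
open Pool.Agent.N879.QM
open scoped ENNReal BigOperators

noncomputable section

open Pool.Agent.N879.QM.Zr
open Pool.Agent.TH228.GS (hh H1 H2 hh_nonneg H2_meas H2_int le_H2 prod_sub_le zN_le)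

theorem t_ZR (γ : Gm) (h1 : S_ZET) (h2 : S_EUL γ) : S_ZR γ := by
  obtain ⟨C₁, T₁, hC₁, hT₁, hone⟩ := h1
  intro k
  obtain ⟨C₂, hC₂, heul⟩ := h2 k
  set P : ℕ := Fintype.card (Pr k) with hP
  set D : ℝ := 8 * C₂ ^ 2 * (2 * max C₁ 2) ^ (2 * P) * 2 ^ k * (1 + 2 * P ^ 2 * C₁) with hD
  have hmx : (2 : ℝ) ≤ max C₁ 2 := le_max_right _ _
  have hD0 : 0 < D := by rw [hD]; positivity
  refine ⟨D, T₁, 2 * P, hD0, hT₁, ?_⟩
  intro A Y M hA hY hM hYA
  have hA3 : 3 ≤ A := hT₁.trans hA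
  have hA0 : 0 < A := by linarith
  set T : ℝ := 2 * A with hT
  have hT1 : 1 ≤ T := by linarith
  have hhalf : T ^ (1 / 2 : ℝ) ≤ 2 * A ^ (1 / 2 : ℝ) := by
    rw [hT, Real.mul_rpow (by norm_num) hA0.le]
    have : (2 : ℝ) ^ (1 / 2 : ℝ) ≤ 2 ^ (1 : ℝ) :=
      Real.rpow_le_rpow_of_exponent_le (by norm_num) (by norm_num)
    rw [Real.rpow_one] at this
    have h0 : 0 ≤ A ^ (1 / 2 : ℝ) := by positivity
    exact mul_le_mul_of_nonneg_right this h0
  have hAT : A ^ (1 / 2 : ℝ) ≤ T ^ (1 / 2 : ℝ) :=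
    Real.rpow_le_rpow hA0.le (by linarith) (by norm_num)
  obtain ⟨hz, hi⟩ := hone T Y (by linarith) hY (hYA.trans hAT)
  have hL : 1 ≤ Real.log A := by
    rw [Real.le_log_iff_exp_le (by linarith)]
    have := Real.exp_one_lt_d9
    linarith
  have hLT : Real.log T ≤ 2 * Real.log A := by
    rw [hT, Real.log_mul (by norm_num) hA0.ne']
    have : Real.log 2 ≤ Real.log A := Real.log_le_log (by norm_num) (by linarith)
    linarith
  have h0 : (1 : ℝ) ≤ T ^ (1 / 2 : ℝ) := Real.one_le_rpow hT1 (by norm_num)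
  have hY1 : (1 : ℝ) ≤ Y := by exact_mod_cast hY
  have hM1 : (1 : ℝ) ≤ M := by exact_mod_cast hM
  have hAh : A ^ (1 / 2 : ℝ) ≤ A := by
    calc A ^ (1 / 2 : ℝ) ≤ A ^ (1 : ℝ) :=
          Real.rpow_le_rpow_of_exponent_le (by linarith) (by norm_num)
      _ = A := Real.rpow_one A
  have hlogY : Real.log Y ≤ Real.log A := Real.log_le_log (by linarith) (hYA.trans hAh)
  set K : ℝ := 2 * max C₁ 2 * Real.log A with hK
  have hK4 : 4 * Real.log A ≤ K := by
    rw [hK]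
    nlinarith
  have hK1 : 1 ≤ K := by linarith
  have hKC : C₁ * Real.log T ≤ K := by
    calc C₁ * Real.log T ≤ C₁ * (2 * Real.log A) := mul_le_mul_of_nonneg_left hLT hC₁.le
      _ ≤ max C₁ 2 * (2 * Real.log A) :=
          mul_le_mul_of_nonneg_right (le_max_left _ _) (by linarith)
      _ = K := by rw [hK]; ring
  have hzN : ∀ v : ℝ, ‖zN Y (1 + I * v)‖ ≤ K := fun v => by
    rw [zN_eq]
    exact (zN_le Y v).trans (by linarith)
  set E : ℝ := 8 * C₂ ^ 2 * K ^ (2 * P) with hE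
  have hE0 : 0 ≤ E := by rw [hE]; positivity
  have hM14 : 0 ≤ (M : ℝ) ^ (-(1 / 4) : ℝ) := by positivity
  have hM14' : (M : ℝ) ^ (-(1 / 4) : ℝ) ≤ 1 :=
    Real.rpow_le_one_of_one_le_of_nonpos hM1 (by norm_num)
  have hM12 : ((M : ℝ) ^ (-(1 / 4) : ℝ)) ^ 2 = (M : ℝ) ^ (-(1 / 2) : ℝ) := by
    rw [← Real.rpow_natCast, ← Real.rpow_mul (by linarith)]
    norm_num
  have hM120 : 0 ≤ (M : ℝ) ^ (-(1 / 2) : ℝ) := by positivity
  -- the pointwise bound
  have hpt : ∀ β ∈ Gd k A, ENNReal.ofReal (‖MT γ (im β) -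
      (∑ m ∈ Finset.Icc 1 M, al γ β m) * ∏ r : Pr k, zN Y (pp β r)‖ ^ 2) ≤
      ENNReal.ofReal (E * (M : ℝ) ^ (-(1 / 2) : ℝ)) + ENNReal.ofReal (E * P) *
        ∑ r : Pr k, H2 Y T (β r.1.1 + β r.1.2) := by
    intro β hβ
    obtain ⟨hβ1, hβ2⟩ := hβ
    obtain ⟨hA1, hA2⟩ := heul β
    have hA2 := hA2 M hM
    set v : Pr k → ℝ := fun r => β r.1.1 + β r.1.2 with hv
    have hv1 : ∀ r, T ^ (1 / 2 : ℝ) ≤ |v r| := fun r => hhalf.trans (hβ2 r)
    have hv2 : ∀ r, |v r| ≤ T := by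
      intro r
      have a1 := hβ1 r.1.1
      have a2 := hβ1 r.1.2
      exact (abs_add_le _ _).trans (by linarith)
    have e1 : MT γ (im β) = Ak γ (im β) * ∏ r : Pr k, riemannZeta (1 + I * (v r : ℂ)) := by
      unfold MT
      congr 1
      refine Finset.prod_congr rfl fun r _ => ?_
      congr 1
      simp only [hv, im]
      push_cast
      ring
    have e2 : ∏ r : Pr k, zN Y (pp β r) = ∏ r : Pr k, zN Y (1 + I * (v r : ℂ)) := by
      refine Finset.prod_congr rfl fun r _ => ?_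
      congr 1
      simp only [hv, pp]
      push_cast
      ring
    set S : ℂ := ∑ m ∈ Finset.Icc 1 M, al γ β m with hS
    have hSn : ‖S‖ ≤ 2 * C₂ := by
      have : S = Ak γ (im β) - (Ak γ (im β) - S) := by ring
      rw [this]
      refine (norm_sub_le _ _).trans ?_
      have := mul_le_mul_of_nonneg_left hM14' hC₂.le
      linarith
    have hz' : ∀ r, ‖riemannZeta (1 + I * (v r : ℂ))‖ ≤ K := fun r =>
      (hz (v r) (h0.trans (hv1 r)) (hv2 r)).trans hKC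
    have hcard : (Finset.univ : Finset (Pr k)).card = P := by rw [hP]; rfl
    have h3 := prod_sub_le Finset.univ (fun r : Pr k => riemannZeta (1 + I * (v r : ℂ)))
      (fun r => zN Y (1 + I * (v r : ℂ))) hK1 (fun r _ => hz' r) (fun r _ => hzN (v r))
    rw [hcard] at h3
    have h4 : ‖∏ r : Pr k, riemannZeta (1 + I * (v r : ℂ))‖ ≤ K ^ P := by
      rw [norm_prod]
      calc ∏ r : Pr k, ‖riemannZeta (1 + I * (v r : ℂ))‖ ≤ ∏ r : Pr k, K :=
            Finset.prod_le_prod (fun _ _ => norm_nonneg _) (fun r _ => hz' r)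
        _ = K ^ P := by rw [Finset.prod_const, hcard]
    have hKP : 0 ≤ K ^ P := by positivity
    set sg : ℝ := ∑ r : Pr k, ‖riemannZeta (1 + I * (v r : ℂ)) - zN Y (1 + I * (v r : ℂ))‖
      with hsg
    have hsg0 : 0 ≤ sg := Finset.sum_nonneg fun _ _ => norm_nonneg _
    have h5 : ‖MT γ (im β) - S * ∏ r : Pr k, zN Y (pp β r)‖ ≤
        K ^ P * (C₂ * (M : ℝ) ^ (-(1 / 4) : ℝ)) + K ^ P * (2 * C₂ * sg) := by
      have e3 : MT γ (im β) - S * ∏ r : Pr k, zN Y (pp β r) =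
          (Ak γ (im β) - S) * (∏ r : Pr k, riemannZeta (1 + I * (v r : ℂ))) +
          S * (∏ r : Pr k, riemannZeta (1 + I * (v r : ℂ)) -
            ∏ r : Pr k, zN Y (1 + I * (v r : ℂ))) := by
        rw [e1, e2]; ring
      rw [e3]
      refine (norm_add_le _ _).trans ?_
      rw [norm_mul, norm_mul]
      have b1 : ‖Ak γ (im β) - S‖ * ‖∏ r : Pr k, riemannZeta (1 + I * (v r : ℂ))‖ ≤
          (C₂ * (M : ℝ) ^ (-(1 / 4) : ℝ)) * K ^ P :=
        mul_le_mul hA2 h4 (norm_nonneg _) (by positivity)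
      have b2 : ‖S‖ * ‖∏ r : Pr k, riemannZeta (1 + I * (v r : ℂ)) -
            ∏ r : Pr k, zN Y (1 + I * (v r : ℂ))‖ ≤ (2 * C₂) * (K ^ P * sg) :=
        mul_le_mul hSn h3 (norm_nonneg _) (by positivity)
      linarith
    have h6 : sg ^ 2 ≤ P * ∑ r : Pr k, hh Y (v r) := by
      have := sq_sum_le_card_mul_sum_sq (s := (Finset.univ : Finset (Pr k)))
        (f := fun r => ‖riemannZeta (1 + I * (v r : ℂ)) - zN Y (1 + I * (v r : ℂ))‖)
      rw [hcard] at this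
      exact this
    have h7 : ‖MT γ (im β) - S * ∏ r : Pr k, zN Y (pp β r)‖ ^ 2 ≤
        E * (M : ℝ) ^ (-(1 / 2) : ℝ) + E * P * ∑ r : Pr k, hh Y (v r) := by
      have c1 : ‖MT γ (im β) - S * ∏ r : Pr k, zN Y (pp β r)‖ ^ 2 ≤
          (K ^ P * (C₂ * (M : ℝ) ^ (-(1 / 4) : ℝ)) + K ^ P * (2 * C₂ * sg)) ^ 2 :=
        pow_le_pow_left₀ (norm_nonneg _) h5 2
      have c2 : (K ^ P * (C₂ * (M : ℝ) ^ (-(1 / 4) : ℝ)) + K ^ P * (2 * C₂ * sg)) ^ 2 ≤
          2 * (K ^ P * (C₂ * (M : ℝ) ^ (-(1 / 4) : ℝ))) ^ 2 +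
            2 * (K ^ P * (2 * C₂ * sg)) ^ 2 := by
        nlinarith [sq_nonneg (K ^ P * (C₂ * (M : ℝ) ^ (-(1 / 4) : ℝ)) - K ^ P * (2 * C₂ * sg))]
      have c3 : 2 * (K ^ P * (C₂ * (M : ℝ) ^ (-(1 / 4) : ℝ))) ^ 2 ≤
          E * (M : ℝ) ^ (-(1 / 2) : ℝ) := by
        have c31 : 2 * (K ^ P * (C₂ * (M : ℝ) ^ (-(1 / 4) : ℝ))) ^ 2 =
            2 * (C₂ ^ 2 * K ^ (2 * P) * ((M : ℝ) ^ (-(1 / 4) : ℝ)) ^ 2) := by
          rw [mul_comm 2 P, pow_mul]; ring
        rw [c31, hM12]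
        have c32 : 0 ≤ C₂ ^ 2 * K ^ (2 * P) * (M : ℝ) ^ (-(1 / 2) : ℝ) := by positivity
        have c33 : E * (M : ℝ) ^ (-(1 / 2) : ℝ) =
            8 * (C₂ ^ 2 * K ^ (2 * P) * (M : ℝ) ^ (-(1 / 2) : ℝ)) := by rw [hE]; ring
        rw [c33]
        linarith
      have c4 : 2 * (K ^ P * (2 * C₂ * sg)) ^ 2 ≤ E * P * ∑ r : Pr k, hh Y (v r) := by
        have c5 : 2 * (K ^ P * (2 * C₂ * sg)) ^ 2 = E * sg ^ 2 := by
          rw [hE, mul_comm 2 P, pow_mul]; ring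
        have c6 : E * P * ∑ r : Pr k, hh Y (v r) = E * (P * ∑ r : Pr k, hh Y (v r)) := by ring
        rw [c5, c6]
        exact mul_le_mul_of_nonneg_left h6 hE0
      linarith
    have hs0 : 0 ≤ ∑ r : Pr k, hh Y (v r) := Finset.sum_nonneg fun r _ => hh_nonneg Y _
    calc ENNReal.ofReal (‖MT γ (im β) - S * ∏ r : Pr k, zN Y (pp β r)‖ ^ 2)
        ≤ ENNReal.ofReal (E * (M : ℝ) ^ (-(1 / 2) : ℝ) + E * P * ∑ r : Pr k, hh Y (v r)) :=
          ENNReal.ofReal_le_ofReal h7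
      _ = ENNReal.ofReal (E * (M : ℝ) ^ (-(1 / 2) : ℝ)) +
            ENNReal.ofReal (E * P) * ∑ r : Pr k, ENNReal.ofReal (hh Y (v r)) := by
          rw [ENNReal.ofReal_add (by positivity) (by positivity),
            ENNReal.ofReal_mul (by positivity : 0 ≤ E * P),
            ENNReal.ofReal_sum_of_nonneg fun r _ => hh_nonneg Y _]
      _ ≤ _ := by
          gcongr with r
          exact le_H2 Y (hv1 r) (hv2 r)
  have hmeas : ∀ r : Pr k, Measurable fun β : Fin k → ℝ => H2 Y T (β r.1.1 + β r.1.2) :=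
    fun r => (H2_meas Y T).comp ((measurable_pi_apply _).add (measurable_pi_apply _))
  have hmeasS : Measurable fun β : Fin k → ℝ => ENNReal.ofReal (E * (M : ℝ) ^ (-(1 / 2) : ℝ)) +
      ENNReal.ofReal (E * P) * ∑ r : Pr k, H2 Y T (β r.1.1 + β r.1.2) :=
    ((Finset.measurable_fun_sum _ fun r _ => hmeas r).const_mul _).const_add _
  have hYi : (Y : ℝ) ^ (-1 : ℝ) = (Y : ℝ)⁻¹ := Real.rpow_neg_one _
  calc ∫⁻ β in Gd k A, ENNReal.ofReal (‖MT γ (im β) -
        (∑ m ∈ Finset.Icc 1 M, al γ β m) * ∏ r : Pr k, zN Y (pp β r)‖ ^ 2) ∂(mS k A)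
      ≤ ∫⁻ β in Gd k A, (ENNReal.ofReal (E * (M : ℝ) ^ (-(1 / 2) : ℝ)) +
          ENNReal.ofReal (E * P) * ∑ r : Pr k, H2 Y T (β r.1.1 + β r.1.2)) ∂(mS k A) :=
        setLIntegral_mono hmeasS hpt
    _ ≤ ∫⁻ β, (ENNReal.ofReal (E * (M : ℝ) ^ (-(1 / 2) : ℝ)) +
          ENNReal.ofReal (E * P) * ∑ r : Pr k, H2 Y T (β r.1.1 + β r.1.2)) ∂(mS k A) :=
        setLIntegral_le_lintegral _ _
    _ = ENNReal.ofReal (E * (M : ℝ) ^ (-(1 / 2) : ℝ)) * ENNReal.ofReal (2 * A) ^ k +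
          ENNReal.ofReal (E * P) *
            ∑ r : Pr k, ∫⁻ β, H2 Y T (β r.1.1 + β r.1.2) ∂(mS k A) := by
        rw [lintegral_add_left measurable_const, lintegral_const, mS_univ,
          lintegral_const_mul _ (Finset.measurable_fun_sum _ fun r _ => hmeas r),
          lintegral_finsetSum _ fun r _ => hmeas r]
    _ ≤ ENNReal.ofReal (E * (M : ℝ) ^ (-(1 / 2) : ℝ)) * ENNReal.ofReal (2 * A) ^ k +
          ENNReal.ofReal (E * P) *
            ∑ r : Pr k, ENNReal.ofReal (2 * (C₁ * T / Y) * (2 * A) ^ (k - 1)) := by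
        have hTY : 0 ≤ C₁ * T / Y := by positivity
        have e9 : ENNReal.ofReal (2 * (C₁ * T / Y) * (2 * A) ^ (k - 1)) =
            2 * ENNReal.ofReal (C₁ * T / Y) * ENNReal.ofReal (2 * A) ^ (k - 1) := by
          rw [ENNReal.ofReal_mul (by positivity : (0 : ℝ) ≤ 2 * (C₁ * T / Y)),
            ENNReal.ofReal_mul (by norm_num : (0 : ℝ) ≤ 2), ENNReal.ofReal_pow (by positivity),
            ENNReal.ofReal_ofNat]
        have e10 : ∀ r : Pr k, ∫⁻ β, H2 Y T (β r.1.1 + β r.1.2) ∂(mS k A) ≤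
            ENNReal.ofReal (2 * (C₁ * T / Y) * (2 * A) ^ (k - 1)) := by
          intro r
          refine (fubS hA0.le _ _ (H2_meas Y T)).trans ?_
          rw [H2_int Y hT1, e9]
          have e11 : ENNReal.ofReal (∫ v in (T ^ (1 / 2 : ℝ))..T, hh Y v) ≤
              ENNReal.ofReal (C₁ * T / Y) := ENNReal.ofReal_le_ofReal hi
          exact mul_le_mul_left (mul_le_mul_right e11 2) _
        exact add_le_add le_rfl (mul_le_mul_right (Finset.sum_le_sum fun r _ => e10 r) _)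
    _ ≤ ENNReal.ofReal (D * Real.log A ^ (2 * P) * A ^ k *
          ((Y : ℝ) ^ (-1 : ℝ) + (M : ℝ) ^ (-(1 / 2) : ℝ))) := by
        rw [Finset.sum_const, Finset.card_univ, ← hP, nsmul_eq_mul, ← ENNReal.ofReal_natCast,
          ← ENNReal.ofReal_mul (by positivity), ← ENNReal.ofReal_mul (by positivity),
          ← ENNReal.ofReal_pow (by positivity), ← ENNReal.ofReal_mul (by positivity),
          ← ENNReal.ofReal_add (by positivity) (by positivity)]
        refine ENNReal.ofReal_le_ofReal ?_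
        have e3 : E * P * (P * (2 * (C₁ * T / Y) * (2 * A) ^ (k - 1))) =
            E * (2 * A) ^ k * (2 * P ^ 2 * C₁) * (Y : ℝ)⁻¹ := by
          rcases Nat.eq_zero_or_pos k with hk | hk
          · have hP0 : P = 0 := by
              rw [hP]
              subst hk
              rw [Fintype.card_eq_zero_iff]
              exact ⟨fun r => r.1.1.elim0⟩
            rw [hP0]
            simp
          · have e4 : (2 * A) * (2 * A) ^ (k - 1) = (2 * A) ^ k := by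
              rw [← pow_succ']
              congr 1
              omega
            rw [← e4, hT]
            ring
        rw [e3, hYi]
        have e5 : E * (2 * A) ^ k * (1 + 2 * P ^ 2 * C₁) = D * Real.log A ^ (2 * P) * A ^ k := by
          rw [hE, hD, hK, mul_pow (2 * max C₁ 2), mul_pow 2 A]
          ring
        rw [← e5]
        have hEA : 0 ≤ E * (2 * A) ^ k := by positivity
        have hYi0 : 0 ≤ (Y : ℝ)⁻¹ := by positivity
        have hQ : 0 ≤ 2 * (P : ℝ) ^ 2 * C₁ := by positivity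
        have : E * (2 * A) ^ k * (1 + 2 * P ^ 2 * C₁) *
            ((Y : ℝ)⁻¹ + (M : ℝ) ^ (-(1 / 2) : ℝ)) -
            (E * (M : ℝ) ^ (-(1 / 2) : ℝ) * (2 * A) ^ k +
              E * (2 * A) ^ k * (2 * P ^ 2 * C₁) * (Y : ℝ)⁻¹) =
            E * (2 * A) ^ k * ((Y : ℝ)⁻¹ + 2 * P ^ 2 * C₁ * (M : ℝ) ^ (-(1 / 2) : ℝ)) := by
          ring
        have h8 : 0 ≤ E * (2 * A) ^ k *
            ((Y : ℝ)⁻¹ + 2 * P ^ 2 * C₁ * (M : ℝ) ^ (-(1 / 2) : ℝ)) := by positivity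
        linarith

end

end Pool.Agent.J4.H50.EG
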