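import Pool.Agent.J4.H50.EG.Stm
import Pool.Agent.N879.QM.Eul

set_option autoImplicit false

/-! The Euler products with general local densities. -/

namespace Pool.Agent.J4.H50.EG

open Complex hiding im
open Filter Topology
open Pool.Agent.N879.QM
open scoped BigOperators

noncomputable section

namespace Eul

open Pool.Agent.N879.QM.Eul

theorem gA_apply (γ : Gm) {k : ℕ} (β : Fin k → ℝ) {m : ℕ} (hm : m ≠ 0) :
    gA γ β m = (af γ m : ℂ) * T (sx β) (m ^ 2) := by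
  show (if m = 0 then 0 else (af γ m : ℂ) * ∑ n ∈ Nat.finMulAntidiag k (m ^ 2), cx n β) = _
  rw [if_neg hm]
  rfl

theorem af_mul (γ : Gm) {m n : ℕ} (h : m.Coprime n) : af γ (m * n) = af γ m * af γ n := by
  unfold af
  rw [h.primeFactors_mul, Finset.prod_union h.disjoint_primeFactors]

theorem gA_mult (γ : Gm) {k : ℕ} (β : Fin k → ℝ) : (gA γ β).IsMultiplicative := by
  rw [ArithmeticFunction.IsMultiplicative.iff_ne_zero]
  refine ⟨?_, fun {m n} hm hn hmn => ?_⟩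
  · rw [gA_apply γ β one_ne_zero, one_pow, (T_mult _).map_one]
    simp [af]
  · rw [gA_apply γ β (mul_ne_zero hm hn), gA_apply γ β hm, gA_apply γ β hn, af_mul γ hmn, mul_pow,
      (T_mult _).map_mul_of_coprime (Nat.Coprime.pow 2 2 hmn)]
    push_cast
    ring

theorem al_mult (γ : Gm) {k : ℕ} (β : Fin k → ℝ) : (al γ β).IsMultiplicative := by
  unfold al
  refine (gA_mult γ β).mul ?_
  exact Finset.prod_induction _ (fun f : ArithmeticFunction ℂ => f.IsMultiplicative)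
    (fun a b ha hb => ha.mul hb) ArithmeticFunction.isMultiplicative_one fun r _ => muA_mult _

/-- the first factor -/
def G (γ : Gm) {k : ℕ} (β : Fin k → ℝ) (p : ℕ) : PowerSeries ℂ := bell p (gA γ β)

theorem bell_al (γ : Gm) {k : ℕ} (β : Fin k → ℝ) {p : ℕ} (hp : p.Prime) :
    bell p (al γ β) = G γ β p * Mu β p := by
  unfold al G Mu
  rw [bell_mul hp, bell_prod hp]
  congr 1
  exact Finset.prod_congr rfl fun r _ => bell_mu hp _

theorem coeff_G (γ : Gm) {k : ℕ} (β : Fin k → ℝ) {p : ℕ} (hp : p.Prime) (v : ℕ) :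
    PowerSeries.coeff v (G γ β p) = ((γ.g p : ℂ)) * PowerSeries.coeff (2 * v) (H β p) +
      (if v = 0 then 1 - (γ.g p : ℂ) else 0) := by
  unfold G bell
  rw [PowerSeries.coeff_mk, gA_apply γ β (pow_ne_zero v hp.ne_zero)]
  have h1 : T (sx β) ((p ^ v) ^ 2) = PowerSeries.coeff (2 * v) (H β p) := by
    have h2 : PowerSeries.coeff (2 * v) (bell p (T (sx β))) = T (sx β) (p ^ (2 * v)) := by
      unfold bell
      rw [PowerSeries.coeff_mk]
    rw [← pow_mul, mul_comm v 2, ← h2, bell_T hp]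
    rfl
  rw [h1]
  rcases Nat.eq_zero_or_pos v with h | h
  · subst h
    rw [if_pos rfl, mul_zero, coeff_zero_H]
    simp [af]
  · rw [if_neg (by omega), add_zero]
    congr 1
    unfold af
    rw [Nat.primeFactors_prime_pow (by omega) hp]
    simp

theorem sm_G (γ : Gm) {k : ℕ} (β : Fin k → ℝ) {p : ℕ} (hp : p.Prime) :
    Sm (G γ β p) ∧ ev (G γ β p) = (γ.g p : ℂ) * (1 / 2 * ((∏ j, (1 - xx β p j)⁻¹) + ∏ j, (1 + xx β p j)⁻¹)) +
      (1 - (γ.g p : ℂ)) := by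
  obtain ⟨h1, h2⟩ := sum_even β hp
  have h0 : Summable fun v : ℕ => ‖(if v = 0 then 1 - (γ.g p : ℂ) else 0 : ℂ)‖ := by
    refine summable_of_ne_finset_zero (s := Finset.range 1) fun v hv => ?_
    rw [if_neg, norm_zero]
    intro h
    exact hv (by rw [h]; simp)
  have h3 : Summable fun v => ‖((γ.g p : ℂ)) * PowerSeries.coeff (2 * v) (H β p)‖ := by
    simp only [norm_mul]
    exact h1.mul_left _
  unfold Sm ev
  simp only [coeff_G γ β hp]
  constructor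
  · exact Summable.of_nonneg_of_le (fun _ => norm_nonneg _) (fun v => norm_add_le _ _) (h3.add h0)
  · rw [Summable.tsum_add h3.of_norm h0.of_norm, tsum_mul_left, h2, tsum_ite_eq]

/-- the local identity -/
theorem local_id (γ : Gm) {k : ℕ} (β : Fin k → ℝ) {p : ℕ} (hp : p.Prime) :
    ∑' v, al γ β (p ^ v) = loc γ (im β) p := by
  have h := (sm_G γ β hp).1.mul (sm_Mu β p).1
  have e : ev (bell p (al γ β)) = ∑' v, al γ β (p ^ v) := by
    unfold ev bell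
    simp only [PowerSeries.coeff_mk]
  rw [← e, bell_al γ β hp, h.2, (sm_G γ β hp).2, (sm_Mu β p).2]
  unfold loc
  have e1 : ∀ r : Pr k, (p : ℂ) ^ (-(1 + im β r.1.1 + im β r.1.2)) = yy β p r := fun r => by
    unfold yy pp im
    congr 1
    ring
  have e2 : ∀ j : Fin k, (p : ℂ) ^ (-(1 / 2 + im β j)) = xx β p j := fun j => rfl
  simp only [e1, e2]
  ring

theorem G_bd (γ : Gm) {k : ℕ} (β : Fin k → ℝ) {p : ℕ} (hp : p.Prime) (v : ℕ) :
    ‖PowerSeries.coeff v (G γ β p)‖ ≤ (2 * v + 1 : ℝ) ^ k * ((p : ℝ)⁻¹) ^ v := by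
  rw [coeff_G γ β hp]
  have hp0 : (0 : ℝ) < p := by exact_mod_cast hp.pos
  rcases Nat.eq_zero_or_pos v with h | h
  · subst h
    rw [if_pos rfl, mul_zero, coeff_zero_H]
    simp
  · rw [if_neg (by omega), add_zero, norm_mul]
    have h1 : ‖(γ.g p : ℂ)‖ ≤ 1 := by
      rw [Complex.norm_real, Real.norm_of_nonneg (γ.nn p)]
      exact γ.le1 p
    calc ‖(γ.g p : ℂ)‖ * ‖PowerSeries.coeff (2 * v) (H β p)‖
        ≤ 1 * ((2 * v + 1 : ℝ) ^ k * ((p : ℝ)⁻¹) ^ v) :=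
          mul_le_mul h1 (H_bd β hp v) (norm_nonneg _) zero_le_one
      _ = _ := one_mul _

theorem coeff_al (γ : Gm) {k : ℕ} (β : Fin k → ℝ) {p : ℕ} (hp : p.Prime) (v : ℕ) :
    al γ β (p ^ v) = PowerSeries.coeff v (G γ β p * Mu β p) := by
  rw [← bell_al γ β hp]
  unfold bell
  rw [PowerSeries.coeff_mk]

theorem al_bd (γ : Gm) {k : ℕ} (β : Fin k → ℝ) {p : ℕ} (hp : p.Prime) (v : ℕ) :
    ‖al γ β (p ^ v)‖ ≤ Dk k v * ((p : ℝ)⁻¹) ^ v := by
  rw [coeff_al γ β hp, PowerSeries.coeff_mul]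
  have h1 : ∀ q ∈ Finset.HasAntidiagonal.antidiagonal v, ‖PowerSeries.coeff q.1 (G γ β p) *
      PowerSeries.coeff q.2 (Mu β p)‖ ≤
      ((2 * v + 1 : ℝ) ^ k * 2 ^ Fintype.card (Pr k)) * ((p : ℝ)⁻¹) ^ v := by
    intro q hq
    have hq' := Finset.HasAntidiagonal.mem_antidiagonal.1 hq
    have h4 : (q.1 : ℝ) ≤ v := by
      have : q.1 ≤ v := by omega
      exact_mod_cast this
    rw [norm_mul]
    calc ‖PowerSeries.coeff q.1 (G γ β p)‖ * ‖PowerSeries.coeff q.2 (Mu β p)‖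
        ≤ ((2 * q.1 + 1 : ℝ) ^ k * ((p : ℝ)⁻¹) ^ q.1) *
          (2 ^ Fintype.card (Pr k) * ((p : ℝ)⁻¹) ^ q.2) :=
          mul_le_mul (G_bd γ β hp _) (Mu_bd β hp _) (norm_nonneg _) (by positivity)
      _ = ((2 * q.1 + 1 : ℝ) ^ k * 2 ^ Fintype.card (Pr k)) * ((p : ℝ)⁻¹) ^ v := by
          rw [← hq', pow_add]
          ring
      _ ≤ _ := by gcongr
  refine (norm_sum_le_of_le _ h1).trans (le_of_eq ?_)
  rw [Finset.sum_const, Finset.Nat.card_antidiagonal, nsmul_eq_mul]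
  unfold Dk
  push_cast
  ring

theorem al_prime (γ : Gm) {k : ℕ} (β : Fin k → ℝ) {p : ℕ} (hp : p.Prime) :
    al γ β (p ^ 1) = -((1 - (γ.g p : ℂ)) * PowerSeries.coeff 2 (H β p)) := by
  have hH := (low_gs Finset.univ (xx β p)).2.2
  have hMu := low_li Finset.univ (yy β p)
  have hs := sum_pr (xx β p)
  have hy : ∑ r, yy β p r = PowerSeries.coeff 2 (H β p) := by
    have h1 : ∑ r, yy β p r = ∑ r : Pr k, xx β p r.1.1 * xx β p r.1.2 :=
      Finset.sum_congr rfl fun r _ => yy_eq β hp r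
    rw [h1]
    have h2 : (2 : ℂ) ≠ 0 := two_ne_zero
    apply mul_left_cancel₀ h2
    rw [hs]
    exact hH.symm
  have hG1 := coeff_G γ β hp 1
  have hG0 := coeff_G γ β hp 0
  rw [if_pos rfl, mul_zero, coeff_zero_H] at hG0
  rw [if_neg one_ne_zero, mul_one, add_zero] at hG1
  rw [coeff_al γ β hp, coeff_one_mul, hG1, hG0]
  have e0 : PowerSeries.coeff 0 (Mu β p) = 1 := hMu.1
  have e1 : PowerSeries.coeff 1 (Mu β p) = -PowerSeries.coeff 2 (H β p) := by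
    rw [← hy]
    exact hMu.2
  rw [e0, e1]
  ring

theorem al_prime_bd (γ : Gm) {k : ℕ} (β : Fin k → ℝ) {p : ℕ} (hp : p.Prime) :
    ‖al γ β (p ^ 1)‖ ≤ γ.D * 3 ^ k * ((p : ℝ)⁻¹) ^ 2 := by
  rw [al_prime γ β hp, norm_neg, norm_mul]
  have hp0 : (0 : ℝ) < p := by exact_mod_cast hp.pos
  have h1 := H_bd β hp 1
  norm_num at h1
  have h2 : ‖1 - (γ.g p : ℂ)‖ ≤ γ.D / p := by
    have e : 1 - (γ.g p : ℂ) = ((1 - γ.g p : ℝ) : ℂ) := by push_cast; rfl
    rw [e, Complex.norm_real, Real.norm_of_nonneg (by linarith [γ.le1 p])]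
    exact γ.bd p hp
  have hD := γ.D0
  calc ‖1 - (γ.g p : ℂ)‖ * ‖PowerSeries.coeff 2 (H β p)‖ ≤ (γ.D / p) * (3 ^ k * (p : ℝ)⁻¹) :=
        mul_le_mul h2 h1 (norm_nonneg _) (by positivity)
    _ = γ.D * 3 ^ k * ((p : ℝ)⁻¹) ^ 2 := by
        field_simp

/-- the bounds for the terms of the local series -/
def ek (γ : Gm) (k : ℕ) : ℕ → ℝ
  | 0 => γ.D * 3 ^ k
  | u + 1 => Dk k (u + 2) * q0 ^ u

theorem ek_nonneg (γ : Gm) (k u : ℕ) : 0 ≤ ek γ k u := by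
  have hD := γ.D0
  cases u with
  | zero => unfold ek; positivity
  | succ u =>
    unfold ek
    have := Dk_nonneg k (u + 2)
    have := q0_pos
    positivity

theorem ek_summable (γ : Gm) (k : ℕ) : Summable (ek γ k) := by
  rw [← summable_nat_add_iff 1]
  have h1 : Summable fun n : ℕ => (n : ℝ) ^ (k + 1) * q0 ^ n :=
    summable_pow_mul_geometric_of_norm_lt_one (k + 1)
      (by rw [Real.norm_of_nonneg q0_pos.le]; exact q0_lt)
  have h2 := ((summable_nat_add_iff 3).2 h1).mul_left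
    (2 ^ Fintype.card (Pr k) * 2 ^ k * (q0 ^ 3)⁻¹)
  refine Summable.of_nonneg_of_le (fun u => ek_nonneg γ k (u + 1)) (fun u => ?_) h2
  show Dk k (u + 2) * q0 ^ u ≤ _
  unfold Dk
  have hq := q0_pos
  have e : (2 ^ Fintype.card (Pr k) * 2 ^ k * (q0 ^ 3)⁻¹) *
      ((((u + 3 : ℕ) : ℝ)) ^ (k + 1) * q0 ^ (u + 3)) =
      ((u : ℝ) + 3) * ((2 * ((u : ℝ) + 3)) ^ k * 2 ^ Fintype.card (Pr k)) * q0 ^ u := by
    rw [mul_pow, pow_add q0 u 3]
    push_cast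
    field_simp
    ring
  rw [e]
  have h3 : ((u + 2 : ℕ) : ℝ) + 1 = (u : ℝ) + 3 := by push_cast; ring
  have h4 : (2 * ((u + 2 : ℕ) : ℝ) + 1) ≤ 2 * ((u : ℝ) + 3) := by push_cast; linarith
  rw [h3]
  gcongr

/-- the sum of the bounds -/
def CE (γ : Gm) (k : ℕ) : ℝ := ∑' u, ek γ k u

theorem CE_nonneg (γ : Gm) (k : ℕ) : 0 ≤ CE γ k := tsum_nonneg (ek_nonneg γ k)

/-- the absolute values with weights -/
def gg (γ : Gm) {k : ℕ} (β : Fin k → ℝ) (m : ℕ) : ℝ := ‖al γ β m‖ * (m : ℝ) ^ (1 / 4 : ℝ)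

theorem gg_nonneg (γ : Gm) {k : ℕ} (β : Fin k → ℝ) (m : ℕ) : 0 ≤ gg γ β m := by
  unfold gg
  positivity

theorem gg_one (γ : Gm) {k : ℕ} (β : Fin k → ℝ) : gg γ β 1 = 1 := by
  unfold gg
  rw [(al_mult γ β).map_one]
  simp

theorem gg_mul (γ : Gm) {k : ℕ} (β : Fin k → ℝ) {m n : ℕ} (h : m.Coprime n) :
    gg γ β (m * n) = gg γ β m * gg γ β n := by
  unfold gg
  rw [(al_mult γ β).map_mul_of_coprime h, norm_mul, Nat.cast_mul,
    Real.mul_rpow (Nat.cast_nonneg m) (Nat.cast_nonneg n)]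
  ring

theorem gg_bd (γ : Gm) {k : ℕ} (β : Fin k → ℝ) {p : ℕ} (hp : p.Prime) (u : ℕ) :
    gg γ β (p ^ (u + 1)) ≤ (p : ℝ) ^ (-(3 / 2) : ℝ) * ek γ k u := by
  have hp0 : (0 : ℝ) < p := by exact_mod_cast hp.pos
  have hp1 : (1 : ℝ) ≤ p := by exact_mod_cast hp.one_lt.le
  have hp2 : (2 : ℝ) ≤ p := by exact_mod_cast hp.two_le
  have hinv : ((p : ℝ)⁻¹) = (p : ℝ) ^ (-1 : ℝ) := (Real.rpow_neg_one _).symm
  unfold gg
  cases u with
  | zero =>
    have h1 := al_prime_bd γ β hp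
    have h2 : ((p ^ (0 + 1) : ℕ) : ℝ) ^ (1 / 4 : ℝ) = (p : ℝ) ^ (1 / 4 : ℝ) := by simp
    rw [h2]
    have hD := γ.D0
    show _ ≤ (p : ℝ) ^ (-(3 / 2) : ℝ) * (γ.D * 3 ^ k)
    have h3 : ((p : ℝ)⁻¹) ^ 2 * (p : ℝ) ^ (1 / 4 : ℝ) ≤ (p : ℝ) ^ (-(3 / 2) : ℝ) := by
      rw [hinv, ← Real.rpow_natCast, ← Real.rpow_mul hp0.le, ← Real.rpow_add hp0]
      exact Real.rpow_le_rpow_of_exponent_le hp1 (by norm_num)
    calc ‖al γ β (p ^ (0 + 1))‖ * (p : ℝ) ^ (1 / 4 : ℝ)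
        ≤ (γ.D * 3 ^ k * ((p : ℝ)⁻¹) ^ 2) * (p : ℝ) ^ (1 / 4 : ℝ) := by gcongr
      _ = γ.D * 3 ^ k * (((p : ℝ)⁻¹) ^ 2 * (p : ℝ) ^ (1 / 4 : ℝ)) := by ring
      _ ≤ γ.D * 3 ^ k * (p : ℝ) ^ (-(3 / 2) : ℝ) := by gcongr
      _ = _ := mul_comm _ _
  | succ u =>
    have h1 := al_bd γ β hp (u + 1 + 1)
    show _ ≤ (p : ℝ) ^ (-(3 / 2) : ℝ) * (Dk k (u + 2) * q0 ^ u)
    have h2 : ((p : ℝ)⁻¹) ^ (u + 2) * ((p ^ (u + 2) : ℕ) : ℝ) ^ (1 / 4 : ℝ) =
        (p : ℝ) ^ (-(3 / 2) : ℝ) * ((p : ℝ) ^ (-(3 / 4) : ℝ)) ^ u := by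
      rw [hinv, Nat.cast_pow, ← Real.rpow_natCast, ← Real.rpow_natCast, ← Real.rpow_natCast,
        ← Real.rpow_mul hp0.le, ← Real.rpow_mul hp0.le, ← Real.rpow_mul hp0.le,
        ← Real.rpow_add hp0, ← Real.rpow_add hp0]
      congr 1
      push_cast
      ring
    have h3 : ((p : ℝ) ^ (-(3 / 4) : ℝ)) ^ u ≤ q0 ^ u := by
      refine pow_le_pow_left₀ (by positivity) ?_ u
      exact Real.rpow_le_rpow_of_nonpos two_pos hp2 (by norm_num)
    have hD := Dk_nonneg k (u + 2)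
    calc ‖al γ β (p ^ (u + 2))‖ * ((p ^ (u + 2) : ℕ) : ℝ) ^ (1 / 4 : ℝ)
        ≤ (Dk k (u + 2) * ((p : ℝ)⁻¹) ^ (u + 2)) * ((p ^ (u + 2) : ℕ) : ℝ) ^ (1 / 4 : ℝ) := by
          refine mul_le_mul_of_nonneg_right h1 (by positivity)
      _ = Dk k (u + 2) * ((p : ℝ) ^ (-(3 / 2) : ℝ) * ((p : ℝ) ^ (-(3 / 4) : ℝ)) ^ u) := by
          rw [mul_assoc, h2]
      _ ≤ Dk k (u + 2) * ((p : ℝ) ^ (-(3 / 2) : ℝ) * q0 ^ u) := by gcongr
      _ = _ := by ring

theorem gg_local (γ : Gm) {k : ℕ} (β : Fin k → ℝ) {p : ℕ} (hp : p.Prime) :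
    Summable (fun v => gg γ β (p ^ v)) ∧
      ∑' v, gg γ β (p ^ v) ≤ 1 + CE γ k * (p : ℝ) ^ (-(3 / 2) : ℝ) := by
  have h1 : Summable fun v => gg γ β (p ^ (v + 1)) :=
    Summable.of_nonneg_of_le (fun v => gg_nonneg γ β _) (fun v => gg_bd γ β hp v)
      ((ek_summable γ k).mul_left _)
  have h2 : Summable fun v => gg γ β (p ^ v) :=
    (summable_nat_add_iff (f := fun v => gg γ β (p ^ v)) 1).1 h1
  refine ⟨h2, ?_⟩
  rw [h2.tsum_eq_zero_add, pow_zero, gg_one]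
  have h3 := Summable.tsum_le_tsum (fun v => gg_bd γ β hp v) h1 ((ek_summable γ k).mul_left _)
  rw [tsum_mul_left] at h3
  have e : CE γ k = ∑' u, ek γ k u := rfl
  rw [e]
  linarith

/-- the constant -/
def CC (γ : Gm) (k : ℕ) : ℝ := Real.exp (CE γ k * ∑' n : ℕ, (n : ℝ) ^ (-(3 / 2) : ℝ))

theorem gg_sum (γ : Gm) {k : ℕ} (β : Fin k → ℝ) (S : Finset ℕ) : ∑ m ∈ S, gg γ β m ≤ CC γ k := by
  classical
  set N : ℕ := S.sup id + 1 with hN
  have hz : Summable fun n : ℕ => (n : ℝ) ^ (-(3 / 2) : ℝ) :=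
    Real.summable_nat_rpow.2 (by norm_num)
  have h1 := (EulerProduct.summable_and_hasSum_smoothNumbers_prod_primesBelow_tsum
    (f := gg γ β) (gg_one γ β) (fun {m n} h => gg_mul γ β h)
    (fun {p} hp => (gg_local γ β hp).1.norm) N).2
  have h2 : HasSum ((N.smoothNumbers : Set ℕ).indicator (gg γ β))
      (∏ p ∈ N.primesBelow, ∑' v, gg γ β (p ^ v)) :=
    (hasSum_subtype_iff_indicator (f := gg γ β) (s := (N.smoothNumbers : Set ℕ))).1 h1
  have h0 : ∀ i, 0 ≤ (N.smoothNumbers : Set ℕ).indicator (gg γ β) i := fun i =>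
    Set.indicator_nonneg (fun m _ => gg_nonneg γ β m) i
  have h3 := sum_le_hasSum S (fun i _ => h0 i) h2
  have h4 : ∑ m ∈ S, gg γ β m ≤ ∑ m ∈ S, (N.smoothNumbers : Set ℕ).indicator (gg γ β) m := by
    refine Finset.sum_le_sum fun m hm => ?_
    rcases Nat.eq_zero_or_pos m with h | h
    · subst h
      have : gg γ β 0 = 0 := by
        unfold gg
        simp
      rw [this]
      exact h0 0
    · rw [Set.indicator_of_mem]
      refine Nat.mem_smoothNumbers_of_lt h ?_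
      have : m ≤ S.sup id := Finset.le_sup (f := id) hm
      omega
  refine h4.trans (h3.trans ?_)
  have hpr : ∀ p ∈ N.primesBelow, p.Prime := fun p hp => Nat.prime_of_mem_primesBelow hp
  calc ∏ p ∈ N.primesBelow, ∑' v, gg γ β (p ^ v)
      ≤ ∏ p ∈ N.primesBelow, Real.exp (CE γ k * (p : ℝ) ^ (-(3 / 2) : ℝ)) := by
        refine Finset.prod_le_prod (fun p hp => tsum_nonneg fun v => gg_nonneg γ β _) fun p hp => ?_
        refine (gg_local γ β (hpr p hp)).2.trans ?_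
        have := Real.add_one_le_exp (CE γ k * (p : ℝ) ^ (-(3 / 2) : ℝ))
        linarith
    _ = Real.exp (∑ p ∈ N.primesBelow, CE γ k * (p : ℝ) ^ (-(3 / 2) : ℝ)) :=
        (Real.exp_sum _ _).symm
    _ ≤ CC γ k := by
        unfold CC
        refine Real.exp_le_exp.2 ?_
        rw [← Finset.mul_sum]
        exact mul_le_mul_of_nonneg_left (hz.sum_le_tsum _ fun n _ => by positivity) (CE_nonneg γ k)

theorem gg_tsum (γ : Gm) {k : ℕ} (β : Fin k → ℝ) : Summable (gg γ β) ∧ ∑' m, gg γ β m ≤ CC γ k := by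
  have h := summable_of_sum_le (gg_nonneg γ β) (gg_sum γ β)
  exact ⟨h, h.tsum_le_of_sum_le (gg_sum γ β)⟩

theorem al_le (γ : Gm) {k : ℕ} (β : Fin k → ℝ) (m : ℕ) : ‖al γ β m‖ ≤ gg γ β m := by
  unfold gg
  rcases Nat.eq_zero_or_pos m with h | h
  · subst h
    simp
  · have : (1 : ℝ) ≤ (m : ℝ) ^ (1 / 4 : ℝ) :=
      Real.one_le_rpow (by exact_mod_cast h) (by norm_num)
    nlinarith [norm_nonneg (al γ β m)]

theorem al_summable (γ : Gm) {k : ℕ} (β : Fin k → ℝ) : Summable fun m => ‖al γ β m‖ :=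
  Summable.of_nonneg_of_le (fun _ => norm_nonneg _) (al_le γ β) (gg_tsum γ β).1

theorem Ak_eq (γ : Gm) {k : ℕ} (β : Fin k → ℝ) : Ak γ (im β) = ∑' m, al γ β m := by
  have h := (al_mult γ β).eulerProduct_hasProd (al_summable γ β)
  unfold Ak
  rw [← h.tprod_eq]
  exact tprod_congr fun p => (local_id γ β p.2).symm

end Eul

open Pool.Agent.J4.H50.EG.Eul in
/-- Part EUL. -/
theorem t_EUL (γ : Gm) : S_EUL γ := by
  intro k
  refine ⟨CC γ k, Real.exp_pos _, fun β => ⟨?_, fun M hM => ?_⟩⟩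
  · rw [Ak_eq]
    refine (norm_tsum_le_tsum_norm (al_summable γ β)).trans ?_
    exact (Summable.tsum_le_tsum (al_le γ β) (al_summable γ β) (gg_tsum γ β).1).trans (gg_tsum γ β).2
  · classical
    have hs : Summable fun m => al γ β m := (al_summable γ β).of_norm
    have h1 := hs.sum_add_tsum_compl (s := Finset.Icc 1 M)
    rw [Ak_eq, ← h1, add_sub_cancel_left]
    have hM0 : (0 : ℝ) < M := by exact_mod_cast hM
    have h2 : ∀ m : ((Finset.Icc 1 M : Finset ℕ) : Set ℕ)ᶜ.Elem, ‖al γ β m‖ ≤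
        (M : ℝ) ^ (-(1 / 4) : ℝ) * gg γ β m := by
      rintro ⟨m, hm⟩
      simp only
      rcases Nat.eq_zero_or_pos m with h | h
      · subst h
        unfold gg
        simp
      · have h3 : M < m := by
          by_contra h4
          exact hm (Finset.mem_coe.2 (Finset.mem_Icc.2 ⟨h, by omega⟩))
        have h4 : (M : ℝ) ^ (1 / 4 : ℝ) ≤ (m : ℝ) ^ (1 / 4 : ℝ) :=
          Real.rpow_le_rpow hM0.le (by exact_mod_cast h3.le) (by norm_num)
        unfold gg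
        rw [Real.rpow_neg hM0.le]
        have h5 : 0 < (M : ℝ) ^ (1 / 4 : ℝ) := Real.rpow_pos_of_pos hM0 _
        rw [inv_mul_eq_div, le_div_iff₀ h5]
        exact mul_le_mul_of_nonneg_left h4 (norm_nonneg _)
    have h3 : Summable fun m : ((Finset.Icc 1 M : Finset ℕ) : Set ℕ)ᶜ.Elem => ‖al γ β m‖ :=
      (al_summable γ β).subtype _
    have h4 : Summable fun m : ((Finset.Icc 1 M : Finset ℕ) : Set ℕ)ᶜ.Elem => gg γ β m :=
      (gg_tsum γ β).1.subtype _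
    have h6 : ∑' m : ((Finset.Icc 1 M : Finset ℕ) : Set ℕ)ᶜ.Elem, gg γ β m ≤ ∑' m, gg γ β m :=
        Summable.tsum_subtype_le (gg γ β) _ (gg_nonneg γ β) (gg_tsum γ β).1
    calc ‖∑' m : ((Finset.Icc 1 M : Finset ℕ) : Set ℕ)ᶜ.Elem, al γ β m‖
        ≤ ∑' m : ((Finset.Icc 1 M : Finset ℕ) : Set ℕ)ᶜ.Elem, ‖al γ β m‖ :=
          norm_tsum_le_tsum_norm h3
      _ ≤ ∑' m : ((Finset.Icc 1 M : Finset ℕ) : Set ℕ)ᶜ.Elem,
            (M : ℝ) ^ (-(1 / 4) : ℝ) * gg γ β m := Summable.tsum_le_tsum h2 h3 (h4.mul_left _)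
      _ = (M : ℝ) ^ (-(1 / 4) : ℝ) *
            ∑' m : ((Finset.Icc 1 M : Finset ℕ) : Set ℕ)ᶜ.Elem, gg γ β m := tsum_mul_left
      _ ≤ (M : ℝ) ^ (-(1 / 4) : ℝ) * CC γ k :=
          mul_le_mul_of_nonneg_left (h6.trans (gg_tsum γ β).2) (by positivity)
      _ = CC γ k * (M : ℝ) ^ (-(1 / 4) : ℝ) := mul_comm _ _

end

end Pool.Agent.J4.H50.EG
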