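import Pool.Agent.J4.H50.EG.L2

set_option autoImplicit false

/-! The comparison of the weighted moments with the main terms, with local conditions. -/

namespace Pool.Agent.J4.H50.EG

open Complex hiding im
open Filter Topology MeasureTheory Set
open Pool.Agent.N879.QM hiding meas_gA meas_al meas_Ak meas_MT meas_SN E3 MT af SN S_COEF S_ZR S_EUL
open Pool.Agent.J4.H50.EA

noncomputable section

/-- **The comparison.** -/
theorem asmL (γ : Gm) (S : Finset ℕ) (hS : ∀ p ∈ S, p.Prime) (hγ : ∀ p ∈ S, γ.g p = 0) (ε : ℕ → ℂ)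
    (hε : ∀ p, ‖ε p‖ ≤ 1) (hMB : S_MB) (hP : S_P1) (hO : S_OPB) (hT : S_TEL) (hc : S_CTS) (hAV : S_AVG)
    (hCF : S_COEF γ) (hZ : S_ZR γ) (hE : S_EUL γ) (k : ℕ) (θ : ℝ) (hk : 1 ≤ k) (hθ : 0 < θ) (hθ1 : θ ≤ 1) (m₁ : ℕ)
    (hm₁ : 8 * k + 1 ≤ m₁) :
    ∃ (C δ X₀ : ℝ) (Yf : ℝ → ℕ), 0 < C ∧ 0 < δ ∧ 1 ≤ X₀ ∧
      (∀ X, X₀ ≤ X → 1 ≤ Yf X ∧ (Yf X : ℝ) ^ (k + 1) ≤ X ^ (1 / 100 : ℝ)) ∧
      ∀ (s : ℤ) (X : ℝ) (c : ℕ → ℂ) (M : ℂ), s = 1 ∨ s = -1 → X₀ ≤ X → (∀ q, ‖c q‖ ≤ 1) → ‖M‖ ≤ X →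
      (∀ p ∈ S, ∀ n, 1 ≤ n → Sc s X c (p * n) = ε p * Sc s X c n) →
      ∫⁻ β in Gd k (X ^ θ), ENNReal.ofReal (‖FW k s θ m₁ c X β * PU ε (US k S) β - M * MT γ (im β)‖ ^ 2) ∂(mS k (X ^ θ)) ≤
        ENNReal.ofReal (C * X ^ (k * θ) * (X ^ (2 - δ) + ∑ n ∈ Finset.Icc 1 (Yf X),
          ((Nat.finMulAntidiag k n).card : ℝ) * (‖Rc γ S s X c M n‖ ^ 2 / n))) := by
  classical
  obtain ⟨C₁, δ₁, X₁, hC₁, hδ₁, hX₁, hAp⟩ := approx hMB hP hO hT hc hAV k θ hk hθ hθ1 m₁ hm₁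
  obtain ⟨C₂, hC₂, hDS⟩ := DS_SN γ hk
  obtain ⟨U, hUd⟩ : ∃ U : Finset (ℕ × Fin k), U = US k S := ⟨_, rfl⟩
  have hU : ∀ v ∈ U, v.1.Prime := fun v hv => hS v.1 (Finset.mem_product.1 (by rw [hUd] at hv; exact hv)).1
  obtain ⟨C₄, hC₄, hNR⟩ := PU_near hAV ε hε U hU
  obtain ⟨H, hH⟩ : ∃ H : ℝ, H = (2 ^ U.card) ^ 2 := ⟨_, rfl⟩
  have hH0 : 0 < H := by rw [hH]; positivity
  obtain ⟨m₀, hE3⟩ := E3 γ hCF hZ hE hk (le_refl (1 : ℝ))
  have hk0 : (0 : ℝ) < k := by exact_mod_cast hk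
  -- the choice of `m`
  obtain ⟨m, hm⟩ : ∃ m : ℕ, m = m₀ + ⌈k * (k + 1) / min δ₁ (1 / 100)⌉₊ + 2 * k * (2 * k + 1) + 1 := ⟨_, rfl⟩
  have hmin : 0 < min δ₁ (1 / 100) := lt_min hδ₁ (by norm_num)
  have hm1 : 1 ≤ m := by omega
  have hm0 : (0 : ℝ) < m := by exact_mod_cast hm1
  have hmδ' : (k : ℝ) * (k + 1) / m ≤ min δ₁ (1 / 100) := by
    have h1 : (k : ℝ) * (k + 1) / min δ₁ (1 / 100) ≤ m := by
      refine (Nat.le_ceil _).trans ?_
      exact_mod_cast (by omega : ⌈(k : ℝ) * (k + 1) / min δ₁ (1 / 100)⌉₊ ≤ m)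
    rw [div_le_iff₀ hmin] at h1
    rw [div_le_iff₀ hm0]
    linarith
  have hmδ : (k : ℝ) / m ≤ min δ₁ (1 / 100) := by
    refine le_trans (div_le_div_of_nonneg_right ?_ hm0.le) hmδ'
    nlinarith
  have hmk : (k : ℝ) * (2 * k + 1) / m ≤ 1 / 2 := by
    rw [div_le_div_iff₀ hm0 (by norm_num)]
    have h1 : 2 * k * (2 * k + 1) ≤ m := by omega
    have h2 : (2 : ℝ) * k * (2 * k + 1) ≤ m := by exact_mod_cast h1
    linarith
  obtain ⟨C₃, A₃, hC₃, hE3⟩ := hE3 m (by omega) hm1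
  have ev1 : ∀ᶠ X : ℝ in atTop, A₃ ≤ X ^ θ := (tendsto_rpow_atTop hθ).eventually_ge_atTop _
  have ev2 : ∀ᶠ X : ℝ in atTop, 2 ≤ X ^ θ := (tendsto_rpow_atTop hθ).eventually_ge_atTop _
  obtain ⟨X₂, hX₂⟩ := eventually_atTop.1 (ev1.and ev2)
  refine ⟨2 ^ (k + 1) * 100 * (C₁ * H + C₄ + C₂ + C₃ + 1), θ / (8 * m), max X₁ X₂, fun X => ⌊(X ^ θ) ^ (1 / m : ℝ)⌋₊ ^ k,
    by positivity, by positivity, hX₁.trans (le_max_left _ _), ?_, ?_⟩
  · intro X hX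
    have hX1 : 1 ≤ X := hX₁.trans ((le_max_left _ _).trans hX)
    have hX0 : 0 < X := by linarith
    have hA1 : 1 ≤ X ^ θ := Real.one_le_rpow hX1 hθ.le
    obtain ⟨f1, f2, f3⟩ := floor_half (Real.one_le_rpow hA1 (by positivity : (0 : ℝ) ≤ 1 / m))
    refine ⟨Nat.one_le_pow _ _ f3, ?_⟩
    push_cast
    rw [← pow_mul]
    calc ((⌊(X ^ θ) ^ (1 / m : ℝ)⌋₊ : ℝ)) ^ (k * (k + 1)) ≤ ((X ^ θ) ^ (1 / m : ℝ)) ^ (k * (k + 1)) :=
          pow_le_pow_left₀ (by positivity) f2 _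
      _ = X ^ (θ * (k * (k + 1) / m)) := by
          rw [← Real.rpow_mul hX0.le, ← Real.rpow_natCast, ← Real.rpow_mul hX0.le]
          congr 1
          push_cast
          ring
      _ ≤ X ^ (1 / 100 : ℝ) := by
          refine Real.rpow_le_rpow_of_exponent_le hX1 ?_
          have h1 := hmδ'.trans (min_le_right _ _)
          have h2 : (0 : ℝ) ≤ k * (k + 1) / m := by positivity
          nlinarith
  intro s X c M hs hX hcb hM hcS
  rw [← hUd]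
  obtain ⟨v1, v2⟩ := hX₂ X ((le_max_right _ _).trans hX)
  have hXX1 : X₁ ≤ X := (le_max_left _ _).trans hX
  have hX1 : 1 ≤ X := hX₁.trans hXX1
  have hX0 : 0 < X := by linarith
  obtain ⟨A, hA⟩ : ∃ A : ℝ, A = X ^ θ := ⟨_, rfl⟩
  rw [← hA] at v1 v2
  simp only [← hA]
  have hA0 : 0 < A := by linarith
  have hA1 : 1 ≤ A := by linarith
  obtain ⟨N, hN⟩ : ∃ N : ℕ, N = ⌊A ^ (1 / m : ℝ)⌋₊ := ⟨_, rfl⟩
  obtain ⟨f1, f2, f3⟩ := floor_half (Real.one_le_rpow hA1 (by positivity : (0 : ℝ) ≤ 1 / m))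
  rw [← hN] at f1 f2 f3
  rw [← hN]
  have hN0 : (0 : ℝ) < N := by exact_mod_cast f3
  obtain ⟨Y, hY⟩ : ∃ Y : ℕ, Y = N ^ k := ⟨_, rfl⟩
  rw [← hY]
  have hY1 : 1 ≤ Y := by rw [hY]; exact Nat.one_le_pow _ _ f3
  have hY0 : (0 : ℝ) < Y := by exact_mod_cast hY1
  have hNY : (N : ℝ) ≤ Y := by
    rw [hY]
    exact_mod_cast Nat.le_self_pow (by omega) N
  have hYA : (Y : ℝ) ≤ A ^ (k / m : ℝ) := by
    rw [hY]
    push_cast
    calc (N : ℝ) ^ k ≤ (A ^ (1 / m : ℝ)) ^ k := pow_le_pow_left₀ hN0.le f2 _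
      _ = A ^ (k / m : ℝ) := by
          rw [← Real.rpow_natCast, ← Real.rpow_mul hA0.le]
          congr 1
          ring
  have hAX : A ≤ X := by
    rw [hA]
    calc X ^ θ ≤ X ^ (1 : ℝ) := Real.rpow_le_rpow_of_exponent_le hX1 hθ1
      _ = X := Real.rpow_one X
  have hYδ : (Y : ℝ) ≤ X ^ δ₁ := by
    refine hYA.trans ((Real.rpow_le_rpow hA0.le hAX (by positivity)).trans ?_)
    exact Real.rpow_le_rpow_of_exponent_le hX1 (hmδ.trans (min_le_left _ _))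
  have hYp : (Y : ℝ) ^ (2 * k + 1) / A ≤ A ^ (-(1 / 2) : ℝ) := by
    have h1 : (Y : ℝ) ^ (2 * k + 1) ≤ A ^ (1 / 2 : ℝ) := by
      calc (Y : ℝ) ^ (2 * k + 1) ≤ (A ^ (k / m : ℝ)) ^ (2 * k + 1) := pow_le_pow_left₀ hY0.le hYA _
        _ = A ^ (k * (2 * k + 1) / m : ℝ) := by
            rw [← Real.rpow_natCast, ← Real.rpow_mul hA0.le]
            congr 1
            push_cast
            ring
        _ ≤ A ^ (1 / 2 : ℝ) := Real.rpow_le_rpow_of_exponent_le hA1 hmk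
    rw [div_le_iff₀ hA0]
    refine h1.trans (le_of_eq ?_)
    nth_rewrite 3 [← Real.rpow_one A]
    rw [← Real.rpow_add hA0]
    norm_num
  -- sizes in terms of `X`
  obtain ⟨δ, hδ⟩ : ∃ δ : ℝ, δ = θ / (8 * m) := ⟨_, rfl⟩
  rw [← hδ]
  obtain ⟨z, hz⟩ : ∃ z : ℝ, z = X ^ (-δ) := ⟨_, rfl⟩
  have hz0 : 0 < z := by rw [hz]; positivity
  have hAz : ∀ t : ℝ, 1 / (8 * m) ≤ t → A ^ (-t) ≤ z := by
    intro t ht
    rw [hA, hz, ← Real.rpow_mul hX0.le]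
    refine Real.rpow_le_rpow_of_exponent_le hX1 ?_
    rw [hδ]
    have h1 : θ / (8 * m) = θ * (1 / (8 * m)) := by ring
    rw [h1]
    nlinarith
  have hNz : ∀ t : ℝ, 1 / 8 ≤ t → t ≤ 1 → (N : ℝ) ^ (-t) ≤ 2 * z := by
    intro t ht ht1
    have h1 : (N : ℝ) ^ (-t) ≤ (A ^ (1 / m : ℝ) / 2) ^ (-t) :=
      Real.rpow_le_rpow_of_nonpos (by positivity) f1 (by linarith)
    refine h1.trans ?_
    rw [Real.div_rpow (by positivity) (by norm_num), ← Real.rpow_mul hA0.le, div_eq_mul_inv,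
      ← Real.rpow_neg (by norm_num), neg_neg, mul_comm]
    have h2 : (2 : ℝ) ^ t ≤ 2 := by
      calc (2 : ℝ) ^ t ≤ 2 ^ (1 : ℝ) := Real.rpow_le_rpow_of_exponent_le (by norm_num) ht1
        _ = 2 := Real.rpow_one 2
    have h3 : A ^ (1 / m * -t : ℝ) ≤ z := by
      have h4 : (1 / m * -t : ℝ) = -(t / m) := by ring
      rw [h4]
      refine hAz _ ?_
      rw [div_le_div_iff₀ (by positivity) hm0]
      nlinarith
    exact mul_le_mul h2 h3 (by positivity) (by norm_num)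
  obtain ⟨V, hV⟩ : ∃ V : ℝ, V = (2 * A) ^ k := ⟨_, rfl⟩
  have hV0 : 0 < V := by rw [hV]; positivity
  have hkθ : X ^ (k * θ) = A ^ k := by
    rw [hA, ← Real.rpow_natCast, ← Real.rpow_mul hX0.le]
    congr 1
    ring
  have hVA : V = 2 ^ k * X ^ (k * θ) := by rw [hV, hkθ, mul_pow]
  have hX2 : 0 < X ^ 2 := by positivity
  have e2 : X ^ (2 - δ) = X ^ 2 * z := by
    rw [hz, sub_eq_add_neg, Real.rpow_add hX0, Real.rpow_two]
  obtain ⟨W, hW⟩ : ∃ W : ℝ, W = ∑ n ∈ Finset.Icc 1 Y, ((Nat.finMulAntidiag k n).card : ℝ) *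
    (‖Rc γ S s X c M n‖ ^ 2 / n) := ⟨_, rfl⟩
  have hW0 : 0 ≤ W := by
    rw [hW]
    exact Finset.sum_nonneg fun n _ => by positivity
  rw [← hW]
  -- the four pieces
  have hM2 : ‖M‖ ^ 2 ≤ X ^ 2 := pow_le_pow_left₀ (norm_nonneg _) hM 2
  have cF := FW_cont hc k s θ m₁ c X
  have cDY := DY_cont k s X c Y
  have cDS := DS_cont γ k Y
  have cSN := SN_cont γ k N
  have p1 : ∫ β, ‖FW k s θ m₁ c X β - DY k s X c Y β‖ ^ 2 ∂(mS k A) ≤ C₁ * V * (X ^ 2 * (2 * z)) := by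
    have h1 := hAp s X c Y hs hXX1 hcb hY1 hYδ
    rw [← hA, ← hV] at h1
    have h2 : (Y : ℝ) ^ (-(1 / 8) : ℝ) ≤ 2 * z := by
      refine le_trans ?_ (hNz (1 / 8) le_rfl (by norm_num))
      exact Real.rpow_le_rpow_of_nonpos hN0 hNY (by norm_num)
    have h3 : ∫ β, ‖FW k s θ m₁ c X β - DY k s X c Y β‖ ^ 2 ∂(mS k A) ≤
        C₁ * V * (X ^ 2 * (Y : ℝ) ^ (-(1 / 8) : ℝ)) := by
      unfold FW
      rw [← hA]
      exact h1
    exact h3.trans (mul_le_mul_of_nonneg_left (mul_le_mul_of_nonneg_left h2 hX2.le) (by positivity))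
  have cPU := PU_cont ε hU
  have cTp : Continuous (Tp s X c (TU k Y U)) := Tp_cont s X c TU_sub
  have p1' : ∫ β, ‖FW k s θ m₁ c X β * PU ε U β - DY k s X c Y β * PU ε U β‖ ^ 2 ∂(mS k A) ≤
      H * (C₁ * V * (X ^ 2 * (2 * z))) := by
    have h1 : ∀ β : Fin k → ℝ, ‖FW k s θ m₁ c X β * PU ε U β - DY k s X c Y β * PU ε U β‖ ^ 2 ≤
        H * ‖FW k s θ m₁ c X β - DY k s X c Y β‖ ^ 2 := by
      intro β
      rw [← sub_mul, norm_mul, mul_pow, mul_comm, hH]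
      exact mul_le_mul_of_nonneg_right (pow_le_pow_left₀ (norm_nonneg _) (PU_le hε hU β) 2) (sq_nonneg _)
    have i1 : Integrable (fun β : Fin k → ℝ => ‖FW k s θ m₁ c X β * PU ε U β - DY k s X c Y β * PU ε U β‖ ^ 2)
        (mS k A) := int_cont (((cF.mul cPU).sub (cDY.mul cPU)).norm.pow 2)
    have i2 : Integrable (fun β : Fin k → ℝ => ‖FW k s θ m₁ c X β - DY k s X c Y β‖ ^ 2) (mS k A) :=
      int_cont ((cF.sub cDY).norm.pow 2)
    have h2 := integral_mono i1 (i2.const_mul H) h1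
    rw [integral_const_mul] at h2
    exact h2.trans (mul_le_mul_of_nonneg_left p1 hH0.le)
  have p5 : ∫ β, ‖DY k s X c Y β * PU ε U β - Tp s X c (TU k Y U) β‖ ^ 2 ∂(mS k A) ≤ C₄ * V * (X ^ 2 * (4 * z)) := by
    have h1 := hNR s X A c Y hs hX1 hA0 hcb (fun v hv n hn => hcS v.1
      (Finset.mem_product.1 (by rw [hUd] at hv; exact hv)).1 n hn) hY1
    rw [← hV] at h1
    refine h1.trans (mul_le_mul_of_nonneg_left ?_ (by positivity))
    have h2 : (Y : ℝ) ^ (-(1 / 8) : ℝ) ≤ 2 * z := by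
      refine le_trans ?_ (hNz (1 / 8) le_rfl (by norm_num))
      exact Real.rpow_le_rpow_of_nonpos hN0 hNY (by norm_num)
    have h3 := hYp.trans (hAz (1 / 2) (by
      rw [div_le_div_iff₀ (by positivity) (by norm_num)]
      have : (1 : ℝ) ≤ m := by exact_mod_cast hm1
      linarith))
    have h4 : X ^ (7 / 4 : ℝ) * (Y : ℝ) ^ k ≤ X ^ 2 * z := by
      have g1 : (Y : ℝ) ^ k ≤ X ^ (1 / 100 : ℝ) := by
        calc (Y : ℝ) ^ k ≤ (A ^ (k / m : ℝ)) ^ k := pow_le_pow_left₀ hY0.le hYA _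
          _ = A ^ (k * k / m : ℝ) := by
              rw [← Real.rpow_natCast, ← Real.rpow_mul hA0.le]
              congr 1
              ring
          _ ≤ X ^ (k * k / m : ℝ) := Real.rpow_le_rpow hA0.le hAX (by positivity)
          _ ≤ X ^ (1 / 100 : ℝ) := by
              refine Real.rpow_le_rpow_of_exponent_le hX1 (le_trans ?_ (hmδ'.trans (min_le_right _ _)))
              refine div_le_div_of_nonneg_right ?_ hm0.le
              nlinarith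
      have g2 : δ ≤ 1 / 8 := by
        rw [hδ, div_le_div_iff₀ (by positivity) (by norm_num)]
        have : (1 : ℝ) ≤ m := by exact_mod_cast hm1
        nlinarith
      calc X ^ (7 / 4 : ℝ) * (Y : ℝ) ^ k ≤ X ^ (7 / 4 : ℝ) * X ^ (1 / 100 : ℝ) :=
            mul_le_mul_of_nonneg_left g1 (by positivity)
        _ = X ^ (7 / 4 + 1 / 100 : ℝ) := (Real.rpow_add hX0 _ _).symm
        _ ≤ X ^ (2 - δ) := Real.rpow_le_rpow_of_exponent_le hX1 (by linarith)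
        _ = X ^ 2 * z := by rw [hz, sub_eq_add_neg, Real.rpow_add hX0, Real.rpow_two]
    have h5 := mul_le_mul_of_nonneg_left h2 hX2.le
    have h6 := mul_le_mul_of_nonneg_left h3 hX2.le
    linarith
  have p2 : ∫ β, ‖Tp s X c (TU k Y U) β - M * DS γ k Y β‖ ^ 2 ∂(mS k A) ≤ V * W + V * (8 * X ^ 2 * z) := by
    have h1 := Tc_DS γ S hS hγ k s X c M Y A hX1 hcb hM hY1 hA0
    rw [← hUd] at h1
    rw [← hV, ← hW] at h1
    refine h1.trans (add_le_add le_rfl (mul_le_mul_of_nonneg_left (mul_le_mul_of_nonneg_left ?_ (by positivity)) hV0.le))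
    refine hYp.trans (hAz (1 / 2) ?_)
    rw [div_le_div_iff₀ (by positivity) (by norm_num)]
    have : (1 : ℝ) ≤ m := by exact_mod_cast hm1
    linarith
  have p3 : ∫ β, ‖M * DS γ k Y β - M * SN γ k N β‖ ^ 2 ∂(mS k A) ≤ X ^ 2 * (C₂ * V * (3 * z)) := by
    have h1 := hDS A N f3 hA0
    rw [← hY, ← hV] at h1
    have h2 : ∀ β, ‖M * DS γ k Y β - M * SN γ k N β‖ ^ 2 = ‖M‖ ^ 2 * ‖DS γ k Y β - SN γ k N β‖ ^ 2 := by
      intro β
      rw [← mul_sub, norm_mul, mul_pow]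
    simp only [h2]
    rw [integral_const_mul]
    have h3 : (N : ℝ) ^ (-(9 / 25) : ℝ) + (Y : ℝ) ^ (2 * k + 1) / A ≤ 3 * z := by
      have h4 := hNz (9 / 25) (by norm_num) (by norm_num)
      have h5 := hYp.trans (hAz (1 / 2) (by
        rw [div_le_div_iff₀ (by positivity) (by norm_num)]
        have : (1 : ℝ) ≤ m := by exact_mod_cast hm1
        linarith))
      linarith
    have h6 : 0 ≤ ∫ β, ‖DS γ k Y β - SN γ k N β‖ ^ 2 ∂(mS k A) := integral_nonneg fun _ => sq_nonneg _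
    refine (mul_le_mul hM2 h1 h6 hX2.le).trans ?_
    exact mul_le_mul_of_nonneg_left (mul_le_mul_of_nonneg_left h3 (by positivity)) hX2.le
  have p4 : ∫⁻ β in Gd k A, ENNReal.ofReal (‖M * SN γ k N β - M * MT γ (im β)‖ ^ 2) ∂(mS k A) ≤
      ENNReal.ofReal (X ^ 2 * (C₃ * V * z)) := by
    have h1 := hE3 A N v1 v2 f1 f2 f3
    rw [Real.rpow_one] at h1
    have h2 : ∀ β, ENNReal.ofReal (‖M * SN γ k N β - M * MT γ (im β)‖ ^ 2) =
        ENNReal.ofReal (‖M‖ ^ 2) * ENNReal.ofReal (‖SN γ k N β - MT γ (im β)‖ ^ 2) := by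
      intro β
      rw [← mul_sub, norm_mul, mul_pow, ENNReal.ofReal_mul (by positivity)]
    simp only [h2]
    have hmeas : Measurable fun β : Fin k → ℝ => ENNReal.ofReal (‖SN γ k N β - MT γ (im β)‖ ^ 2) :=
      (((meas_SN γ N).sub (meas_MT γ hE)).norm.pow_const 2).ennreal_ofReal
    rw [lintegral_const_mul _ hmeas]
    refine (mul_le_mul' (ENNReal.ofReal_le_ofReal hM2) h1).trans ?_
    rw [← ENNReal.ofReal_mul hX2.le]
    refine ENNReal.ofReal_le_ofReal (mul_le_mul_of_nonneg_left ?_ hX2.le)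
    rw [mul_assoc]
    refine mul_le_mul_of_nonneg_left ?_ hC₃.le
    have h3 : A ^ (k * (1 : ℝ) - 1 / (4 * m)) = A ^ k * A ^ (-(1 / (4 * m)) : ℝ) := by
      rw [mul_one, sub_eq_add_neg, Real.rpow_add hA0, Real.rpow_natCast]
    rw [h3]
    refine mul_le_mul ?_ (hAz _ ?_) (by positivity) hV0.le
    · rw [hV, mul_pow]
      exact le_mul_of_one_le_left (by positivity) (one_le_pow₀ (by norm_num))
    · rw [div_le_div_iff₀ (by positivity) (by positivity)]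
      linarith
  -- everything together
  have q1 := to_lint ((cF.mul cPU).sub (cDY.mul cPU)) p1' (Gd k A)
  have q5 := to_lint ((cDY.mul cPU).sub cTp) p5 (Gd k A)
  have q2 := to_lint (cTp.sub (continuous_const.mul cDS)) p2 (Gd k A)
  have q3 := to_lint ((continuous_const.mul cDS).sub (continuous_const.mul cSN)) p3 (Gd k A)
  have r0 := lint_add_sq (μ := (mS k A).restrict (Gd k A))
    (f := fun β => FW k s θ m₁ c X β * PU ε U β - DY k s X c Y β * PU ε U β)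
    (g := fun β => DY k s X c Y β * PU ε U β - Tp s X c (TU k Y U) β)
    (h := fun β => FW k s θ m₁ c X β * PU ε U β - Tp s X c (TU k Y U) β)
    ((cF.mul cPU).sub (cDY.mul cPU)).measurable ((cDY.mul cPU).sub cTp).measurable (by positivity) (by positivity) q1 q5
    (fun β => by ring)
  have r1 := lint_add_sq (μ := (mS k A).restrict (Gd k A))
    (f := fun β => FW k s θ m₁ c X β * PU ε U β - Tp s X c (TU k Y U) β)
    (g := fun β => Tp s X c (TU k Y U) β - M * DS γ k Y β)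
    (h := fun β => FW k s θ m₁ c X β * PU ε U β - M * DS γ k Y β)
    ((cF.mul cPU).sub cTp).measurable (cTp.sub (continuous_const.mul cDS)).measurable (by positivity) (by positivity) r0 q2
    (fun β => by ring)
  have r2 := lint_add_sq (μ := (mS k A).restrict (Gd k A)) (f := fun β => M * DS γ k Y β - M * SN γ k N β)
    (g := fun β => M * SN γ k N β - M * MT γ (im β)) (h := fun β => M * DS γ k Y β - M * MT γ (im β))
    ((continuous_const.mul cDS).sub (continuous_const.mul cSN)).measurable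
    ((measurable_const.mul (meas_SN γ N)).sub (measurable_const.mul (meas_MT γ hE))) (by positivity) (by positivity) q3
    p4 (fun β => by ring)
  have r3 := lint_add_sq (μ := (mS k A).restrict (Gd k A))
    (f := fun β => FW k s θ m₁ c X β * PU ε U β - M * DS γ k Y β)
    (g := fun β => M * DS γ k Y β - M * MT γ (im β)) (h := fun β => FW k s θ m₁ c X β * PU ε U β - M * MT γ (im β))
    ((cF.mul cPU).sub (continuous_const.mul cDS)).measurable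
    ((measurable_const.mul cDS.measurable).sub (measurable_const.mul (meas_MT γ hE))) (by positivity) (by positivity)
    r1 r2 (fun β => by ring)
  refine r3.trans (ENNReal.ofReal_le_ofReal ?_)
  rw [e2]
  have e3 : 2 * (2 * (2 * (H * (C₁ * V * (X ^ 2 * (2 * z)))) + 2 * (C₄ * V * (X ^ 2 * (4 * z)))) +
      2 * (V * W + V * (8 * X ^ 2 * z))) +
      2 * (2 * (X ^ 2 * (C₂ * V * (3 * z))) + 2 * (X ^ 2 * (C₃ * V * z))) =
      V * (X ^ 2 * z * (16 * (C₁ * H) + 32 * C₄ + 32 + 12 * C₂ + 4 * C₃) + 4 * W) := by ring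
  rw [e3, hVA]
  have e4 : 2 ^ (k + 1) * 100 * (C₁ * H + C₄ + C₂ + C₃ + 1) * X ^ (k * θ) * (X ^ 2 * z + W) =
      2 ^ k * X ^ (k * θ) * (200 * (C₁ * H + C₄ + C₂ + C₃ + 1) * (X ^ 2 * z) +
        200 * (C₁ * H + C₄ + C₂ + C₃ + 1) * W) := by ring
  rw [e4]
  refine mul_le_mul_of_nonneg_left ?_ (by positivity)
  have h1 : 0 ≤ X ^ 2 * z := by positivity
  have hCH : 0 < C₁ * H := mul_pos hC₁ hH0
  have h2 : X ^ 2 * z * (16 * (C₁ * H) + 32 * C₄ + 32 + 12 * C₂ + 4 * C₃) ≤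
      200 * (C₁ * H + C₄ + C₂ + C₃ + 1) * (X ^ 2 * z) := by
    have h3 : 0 ≤ (X ^ 2 * z) * (C₁ * H) := by positivity
    have h4 : 0 ≤ (X ^ 2 * z) * C₂ := by positivity
    have h5 : 0 ≤ (X ^ 2 * z) * C₃ := by positivity
    have h8 : 0 ≤ (X ^ 2 * z) * C₄ := by positivity
    have h7 : 200 * (C₁ * H + C₄ + C₂ + C₃ + 1) * (X ^ 2 * z) -
        X ^ 2 * z * (16 * (C₁ * H) + 32 * C₄ + 32 + 12 * C₂ + 4 * C₃) =
        184 * (X ^ 2 * z * (C₁ * H)) + 188 * (X ^ 2 * z * C₂) + 196 * (X ^ 2 * z * C₃) + 168 * (X ^ 2 * z) +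
        168 * (X ^ 2 * z * C₄) := by ring
    linarith only [h1, h3, h4, h5, h7, h8]
  have h6 : 4 * W ≤ 200 * (C₁ * H + C₄ + C₂ + C₃ + 1) * W := by
    refine mul_le_mul_of_nonneg_right ?_ hW0
    linarith only [hCH, hC₂, hC₃, hC₄]
  exact add_le_add h2 h6

end

end Pool.Agent.J4.H50.EG
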