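import Pool.Agent.J4.H50.EG.L3
import Pool.Agent.Helper368_LD.SWa
import Pool.Agent.Helper368_LD.JFacts

set_option autoImplicit false

/-! The prime conductors. -/

namespace Pool.Agent.J4.H50.EG

open Complex hiding im
open Filter Topology MeasureTheory Set
open Pool.Agent.N879.QM hiding meas_gA meas_al meas_Ak meas_MT meas_SN E3 MT af SN S_COEF S_ZR S_EUL
open Pool.Agent.J4.H50.EA
open Pool.Agent.H306R2.RG

noncomputable section

/-- the parity condition -/
lemma Is_mod {s : ℤ} {p : ℕ} (hp : p.Prime) (h : Is s p) : (p : ℤ) % 4 = s % 4 := by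
  obtain ⟨h2, χ, hχ⟩ := h
  obtain ⟨φ, d, hd, hq, -, hF, hs⟩ := uni_key s p χ hp.ne_zero hχ
  have h4 : ¬ 4 ∣ p := by
    intro h
    have h1 := (Nat.dvd_prime hp).1 h
    rcases h1 with h1 | h1
    · omega
    · rw [← h1] at hp
      exact absurd hp (by norm_num)
  rcases hF with e | e | e | e <;> rw [e] at hd hq <;> simp only [F8, F4, F1] at hd hq
  · exact absurd ⟨2 * d, by omega⟩ h4
  · exact absurd ⟨d, hq⟩ h4
  · obtain ⟨h5, -⟩ := hd
    rw [one_mul] at hq
    rw [← hq] at h5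
    rcases hs with rfl | rfl <;> omega
  · obtain ⟨h5, -⟩ := hd
    rw [one_mul] at hq
    rw [← hq] at h5
    rcases hs with rfl | rfl <;> omega

lemma jac_neg_one {s : ℤ} (hs : s = 1 ∨ s = -1) {p : ℕ} (h : (p : ℤ) % 4 = s % 4) : jacobiSym (-1) p = s := by
  have hodd : Odd p := by
    rw [Nat.odd_iff]
    rcases hs with rfl | rfl <;> omega
  rw [jacobiSym.at_neg_one hodd]
  rcases hs with rfl | rfl
  · rw [ZMod.χ₄_nat_one_mod_four (by omega)]
  · rw [ZMod.χ₄_nat_three_mod_four (by omega)]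

lemma jchi_Rp {s : ℤ} (hs : s = 1 ∨ s = -1) {p : ℕ} [NeZero p] (hp : p.Prime) (h : (p : ℤ) % 4 = s % 4) :
    Rp s (Pool.Agent.H491R3.J.jchi p) := by
  have hodd : Odd p := by
    rw [Nat.odd_iff]
    rcases hs with rfl | rfl <;> omega
  have hns : ¬ IsSquare p := Irreducible.not_isSquare hp
  have h1 : Pool.Agent.H491R3.J.jchi p ≠ 1 := Pool.Agent.Helper368_LD.jchi_ne_one hodd hns
  refine ⟨?_, ?_, h1, ?_⟩
  · rw [DirichletCharacter.isPrimitive_def]
    have h2 := DirichletCharacter.conductor_dvd_level (Pool.Agent.H491R3.J.jchi p)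
    rcases (Nat.dvd_prime hp).1 h2 with h3 | h3
    · exfalso
      exact h1 ((DirichletCharacter.eq_one_iff_conductor_eq_one).2 h3)
    · exact h3
  · refine MulChar.ext fun u => ?_
    rw [MulChar.pow_apply_coe, MulChar.one_apply_coe]
    have h2 : ((u : ZMod p).val : ZMod p) = u := ZMod.natCast_zmod_val _
    have hcop : Nat.Coprime (u : ZMod p).val p := ZMod.val_coe_unit_coprime u
    rw [← h2, Pool.Agent.Helper368_LD.jchi_natCast]
    have h3 : jacobiSym (((u : ZMod p).val : ℕ) : ℤ) p ^ 2 = 1 := by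
      apply jacobiSym.sq_one
      rw [Int.gcd_natCast_natCast]
      exact hcop
    exact_mod_cast h3
  · have h2 : (-1 : ZMod p) = ((p - 1 : ℕ) : ZMod p) := by
      rw [Nat.cast_sub hp.one_le, ZMod.natCast_self]
      simp
    rw [h2, Pool.Agent.Helper368_LD.jchi_natCast]
    have h3 : jacobiSym ((p - 1 : ℕ) : ℤ) p = jacobiSym (-1) p := by
      rw [Nat.cast_sub hp.one_le]
      apply jacobiSym.mod_left'
      push_cast
      have : ((p : ℤ) - 1) = -1 + p := by ring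
      rw [this, Int.add_emod_right]
    rw [h3, jac_neg_one hs h]

lemma Is_prime {s : ℤ} (hs : s = 1 ∨ s = -1) {p : ℕ} (hp : p.Prime) : Is s p ↔ (p : ℤ) % 4 = s % 4 := by
  constructor
  · exact Is_mod hp
  · intro h
    have : NeZero p := ⟨hp.ne_zero⟩
    exact ⟨hp.two_le, _, jchi_Rp hs hp h⟩

lemma vl_prime {s : ℤ} (hs : s = 1 ∨ s = -1) {p : ℕ} (hp : p.Prime) (h : (p : ℤ) % 4 = s % 4) (n : ℕ) :
    vl s p n = ((jacobiSym (n : ℤ) p : ℤ) : ℂ) := by
  have : NeZero p := ⟨hp.ne_zero⟩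
  rw [Pool.Agent.N879.QM.Avg.vl_eq t_UNI hp.two_le _ (jchi_Rp hs hp h) n, Pool.Agent.Helper368_LD.jchi_natCast]

/-! ### The sums over primes -/

open Classical in
/-- sums over the primes with prescribed symbols -/
def FS (S : Finset ℕ) (ε : ℕ → ℤ) (D : ℤ) (y : ℝ) : ℂ :=
  ∑ p ∈ Finset.Icc 1 ⌊y⌋₊, if ∀ l ∈ S, jacobiSym (l : ℤ) p = ε l then
    (Pool.Agent.Helper368_LD.lp p : ℂ) * ((jacobiSym D p : ℤ) : ℂ) else 0

lemma FS_empty (ε : ℕ → ℤ) (D : ℤ) (y : ℝ) : FS ∅ ε D y = Pool.Agent.Helper368_LD.PS D 0 y := by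
  unfold FS Pool.Agent.Helper368_LD.PS
  refine Finset.sum_congr rfl fun p _ => ?_
  rw [if_pos (fun l hl => absurd hl (Finset.notMem_empty _))]
  simp

lemma FS_insert {S : Finset ℕ} {ε : ℕ → ℤ} {l : ℕ} (hε : ε l = 1 ∨ ε l = -1) (D : ℤ) (y : ℝ) :
    FS (insert l S) ε D y = 1 / 2 * (FS S ε (D * l ^ 2) y + ε l * FS S ε (D * l) y) := by
  classical
  unfold FS
  rw [Finset.mul_sum, ← Finset.sum_add_distrib, Finset.mul_sum]
  refine Finset.sum_congr rfl fun p hp => ?_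
  have hp1 : 1 ≤ p := (Finset.mem_Icc.1 hp).1
  have e1 : jacobiSym (D * (l : ℤ) ^ 2) p = jacobiSym D p * jacobiSym l p ^ 2 := by
    rw [jacobiSym.mul_left, jacobiSym.pow_left]
  have e2 : jacobiSym (D * (l : ℤ)) p = jacobiSym D p * jacobiSym l p := jacobiSym.mul_left _ _ _
  rw [e1, e2]
  by_cases h : ∀ m ∈ S, jacobiSym (m : ℤ) p = ε m
  · rw [if_pos h, if_pos h]
    by_cases h2 : jacobiSym (l : ℤ) p = ε l
    · rw [if_pos (by
        intro m hm
        rcases Finset.mem_insert.1 hm with rfl | hm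
        · exact h2
        · exact h m hm), h2]
      rcases hε with h3 | h3 <;> rw [h3] <;> push_cast <;> ring
    · rw [if_neg (fun h3 => h2 (h3 l (Finset.mem_insert_self _ _)))]
      rcases hε with h3 | h3 <;> rcases jacobiSym.trichotomy (l : ℤ) p with h4 | h4 | h4 <;> rw [h3, h4] at h2 ⊢
      · push_cast; ring
      · exact absurd rfl h2
      · push_cast; ring
      · push_cast; ring
      · push_cast; ring
      · exact absurd rfl h2
  · rw [if_neg h, if_neg h, if_neg (fun h3 => h fun m hm => h3 m (Finset.mem_insert_of_mem hm))]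
    ring

lemma nsq_mul {D : ℤ} {l : ℕ} (hl : l.Prime) (hD : ¬ IsSquare D) (hlD : ¬ (l : ℤ) ∣ D) :
    ¬ IsSquare (D * l) ∧ ¬ IsSquare (D * (l : ℤ) ^ 2) := by
  have hlz : Prime (l : ℤ) := Nat.prime_iff_prime_int.1 hl
  have hl0 : (l : ℤ) ≠ 0 := by exact_mod_cast hl.ne_zero
  constructor
  · rintro ⟨a, ha⟩
    have h1 : (l : ℤ) ∣ a := by
      have : (l : ℤ) ∣ a * a := by
        rw [← ha]
        exact Dvd.intro_left D rfl
      rcases hlz.dvd_or_dvd this with h | h <;> exact h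
    obtain ⟨b, rfl⟩ := h1
    apply hlD
    refine ⟨b * b, ?_⟩
    have h2 : (D - l * (b * b)) * l = 0 := by linear_combination ha
    rcases mul_eq_zero.1 h2 with h3 | h3
    · linarith
    · exact absurd h3 hl0
  · rintro ⟨a, ha⟩
    have h1 : (l : ℤ) ∣ a := by
      have : (l : ℤ) ∣ a * a := by
        rw [← ha]
        exact Dvd.intro_left (D * l) (by ring)
      rcases hlz.dvd_or_dvd this with h | h <;> exact h
    obtain ⟨b, rfl⟩ := h1
    apply hD
    refine ⟨b, ?_⟩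
    have h2 : (D - b * b) * (l : ℤ) ^ 2 = 0 := by linear_combination ha
    rcases mul_eq_zero.1 h2 with h3 | h3
    · linarith
    · exact absurd h3 (pow_ne_zero 2 hl0)

/-- Siegel and Walfisz -/
theorem FS_SW (ε : ℕ → ℤ) (A : ℕ) (S : Finset ℕ) : (∀ l ∈ S, l.Prime) → (∀ l ∈ S, ε l = 1 ∨ ε l = -1) → ∀ B : ℕ,
    ∃ y0 : ℝ, ∀ y : ℝ, y0 ≤ y → ∀ D : ℤ, ¬ IsSquare D → (∀ l ∈ S, ¬ (l : ℤ) ∣ D) → 4 * (D.natAbs : ℝ) ≤ Real.log y ^ B →
    ‖FS S ε D y‖ ≤ 20 * y / Real.log y ^ A := by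
  classical
  refine Finset.induction_on S ?_ ?_
  · intro _ _ B
    obtain ⟨y0, h⟩ := Pool.Agent.Helper368_LD.PS_SW A B
    exact ⟨y0, fun y hy D hD _ hB => by rw [FS_empty]; exact h y hy D hD hB⟩
  · intro l S hl ih hS hε B
    obtain ⟨y0, h⟩ := ih (fun m hm => hS m (Finset.mem_insert_of_mem hm))
      (fun m hm => hε m (Finset.mem_insert_of_mem hm)) (B + 1)
    have hlp : l.Prime := hS l (Finset.mem_insert_self _ _)
    have hlog : ∀ᶠ y : ℝ in atTop, (l : ℝ) ^ 2 ≤ Real.log y := Real.tendsto_log_atTop.eventually_ge_atTop _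
    obtain ⟨y1, hy1⟩ := eventually_atTop.1 hlog
    refine ⟨max y0 y1, fun y hy D hD hcop hB => ?_⟩
    have hl2 := hy1 y ((le_max_right _ _).trans hy)
    have hl1 : (1 : ℝ) ≤ (l : ℝ) ^ 2 := one_le_pow₀ (by exact_mod_cast hlp.one_le)
    have hL : 1 ≤ Real.log y := hl1.trans hl2
    have hcl := hcop l (Finset.mem_insert_self _ _)
    obtain ⟨n1, n2⟩ := nsq_mul hlp hD hcl
    have hcS : ∀ m ∈ S, ¬ (m : ℤ) ∣ D := fun m hm => hcop m (Finset.mem_insert_of_mem hm)
    have hml : ∀ m ∈ S, ¬ (m : ℤ) ∣ (l : ℤ) := by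
      intro m hm hd
      have h1 : m ∣ l := by exact_mod_cast hd
      have h2 := (Nat.prime_dvd_prime_iff_eq (hS m (Finset.mem_insert_of_mem hm)) hlp).1 h1
      rw [h2] at hm
      exact hl hm
    have hpr : ∀ m ∈ S, Prime (m : ℤ) := fun m hm =>
      Nat.prime_iff_prime_int.1 (hS m (Finset.mem_insert_of_mem hm))
    have c1 : ∀ m ∈ S, ¬ (m : ℤ) ∣ D * l := by
      intro m hm hd
      rcases (hpr m hm).dvd_or_dvd hd with h1 | h1
      · exact hcS m hm h1
      · exact hml m hm h1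
    have c2 : ∀ m ∈ S, ¬ (m : ℤ) ∣ D * (l : ℤ) ^ 2 := by
      intro m hm hd
      rcases (hpr m hm).dvd_or_dvd hd with h1 | h1
      · exact hcS m hm h1
      · exact hml m hm ((hpr m hm).dvd_of_dvd_pow h1)
    have b2 : 4 * ((D * (l : ℤ) ^ 2).natAbs : ℝ) ≤ Real.log y ^ (B + 1) := by
      rw [Int.natAbs_mul, Int.natAbs_pow, Int.natAbs_natCast]
      generalize D.natAbs = d at hB ⊢
      rw [pow_succ (Real.log y)]
      have := mul_le_mul hB hl2 (by positivity) (by positivity)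
      push_cast
      linarith
    have b1 : 4 * ((D * (l : ℤ)).natAbs : ℝ) ≤ Real.log y ^ (B + 1) := by
      refine le_trans ?_ b2
      rw [Int.natAbs_mul, Int.natAbs_mul, Int.natAbs_pow, Int.natAbs_natCast]
      generalize D.natAbs = d
      have h3 : d * l ≤ d * l ^ 2 := Nat.mul_le_mul_left d (Nat.le_self_pow two_ne_zero l)
      have h4 : ((d * l : ℕ) : ℝ) ≤ ((d * l ^ 2 : ℕ) : ℝ) := by exact_mod_cast h3
      linarith
    have a1 := h y ((le_max_left _ _).trans hy) _ n1 c1 b1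
    have a2 := h y ((le_max_left _ _).trans hy) _ n2 c2 b2
    rw [FS_insert (hε l (Finset.mem_insert_self _ _))]
    have hen : ‖((ε l : ℤ) : ℂ)‖ = 1 := by
      rcases hε l (Finset.mem_insert_self _ _) with h5 | h5 <;> rw [h5] <;> simp
    rw [norm_mul]
    have h6 := norm_add_le (FS S ε (D * (l : ℤ) ^ 2) y) (ε l * FS S ε (D * l) y)
    rw [norm_mul, hen, one_mul] at h6
    have h7 : ‖(1 / 2 : ℂ)‖ = 1 / 2 := by norm_num
    rw [h7]
    linarith

end

end Pool.Agent.J4.H50.EG
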