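import Pool.Agent.J4.H50.EG.L4

set_option autoImplicit false

/-! The prime conductors: correlations. -/

namespace Pool.Agent.J4.H50.EG

open Complex hiding im
open Filter Topology MeasureTheory Set
open Pool.Agent.N879.QM hiding meas_gA meas_al meas_Ak meas_MT meas_SN E3 MT af SN S_COEF S_ZR S_EUL
open Pool.Agent.J4.H50.EA

noncomputable section

open Classical in
/-- the normalised weights on the prime conductors with prescribed symbols -/
def cpw (S : Finset ℕ) (ε : ℕ → ℤ) (s : ℤ) (X : ℝ) (q : ℕ) : ℂ :=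
  if q.Prime ∧ (q : ℝ) < X ∧ ∀ l ∈ S, vl s q l = (ε l : ℂ) then ((Real.log q / Real.log X : ℝ) : ℂ) else 0

lemma cpw_le (S : Finset ℕ) (ε : ℕ → ℤ) (s : ℤ) {X : ℝ} (hX : 1 < X) (q : ℕ) : ‖cpw S ε s X q‖ ≤ 1 := by
  unfold cpw
  have hL : 0 < Real.log X := Real.log_pos hX
  split_ifs with h
  · have h1 : (1 : ℝ) ≤ q := by exact_mod_cast h.1.one_le
    have h2 : 0 ≤ Real.log (q : ℝ) := Real.log_nonneg h1
    rw [Complex.norm_real, Real.norm_of_nonneg (by positivity), div_le_one hL]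
    exact Real.log_le_log (by linarith) h.2.1.le
  · rw [norm_zero]
    exact zero_le_one

open Classical in
/-- the primes -/
def PF (S : Finset ℕ) (ε : ℕ → ℤ) (s : ℤ) (X : ℝ) : Finset ℕ :=
  (Finset.range ⌈X⌉₊).filter (fun p => p.Prime ∧ (p : ℤ) % 4 = s % 4 ∧ ∀ l ∈ S, jacobiSym (l : ℤ) p = ε l)

/-- the main term of the correlations -/
def MS (S : Finset ℕ) (ε : ℕ → ℤ) (s : ℤ) (X : ℝ) : ℝ := ∑ p ∈ PF S ε s X, Real.log p

lemma mem_PF {S : Finset ℕ} {ε : ℕ → ℤ} {s : ℤ} {X : ℝ} {p : ℕ} : p ∈ PF S ε s X ↔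
    (p : ℝ) < X ∧ p.Prime ∧ (p : ℤ) % 4 = s % 4 ∧ ∀ l ∈ S, jacobiSym (l : ℤ) p = ε l := by
  classical
  unfold PF
  rw [Finset.mem_filter, Finset.mem_range, Nat.lt_ceil]

/-- the correlations -/
lemma Sc_cpw (S : Finset ℕ) (ε : ℕ → ℤ) {s : ℤ} (hs : s = 1 ∨ s = -1) (X : ℝ) (n : ℕ) :
    Sc s X (cpw S ε s X) n =
      ((1 / Real.log X : ℝ) : ℂ) * ∑ p ∈ PF S ε s X, ((Real.log p : ℝ) : ℂ) * ((jacobiSym (n : ℤ) p : ℤ) : ℂ) := by
  classical
  have hsub : PF S ε s X ⊆ Q s X := by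
    intro p hp
    obtain ⟨h1, h2, h3, -⟩ := mem_PF.1 hp
    unfold Q
    rw [Finset.mem_filter, Finset.mem_Ico, Nat.lt_ceil]
    exact ⟨⟨h2.two_le, h1⟩, (Is_prime hs h2).2 h3⟩
  unfold Sc
  rw [← Finset.sum_subset hsub, Finset.mul_sum]
  · refine Finset.sum_congr rfl fun p hp => ?_
    obtain ⟨h1, h2, h3, h4⟩ := mem_PF.1 hp
    rw [vl_prime hs h2 h3]
    unfold cpw
    rw [if_pos ⟨h2, h1, fun l hl => by rw [vl_prime hs h2 h3, h4 l hl]⟩]
    push_cast
    ring
  · intro p hp hnp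
    unfold cpw
    rw [if_neg, zero_mul]
    rintro ⟨h1, h2, h3⟩
    have h4 : (p : ℤ) % 4 = s % 4 := (Is_prime hs h1).1 (Q_is hp).1
    refine hnp (mem_PF.2 ⟨h2, h1, h4, fun l hl => ?_⟩)
    have h5 := h3 l hl
    rw [vl_prime hs h1 h4] at h5
    exact_mod_cast h5

/-- the relation to the sums over all primes -/
lemma PF_FS (S : Finset ℕ) (ε : ℕ → ℤ) {s : ℤ} (hs : s = 1 ∨ s = -1) {X : ℝ} (hX : 1 ≤ X) (n : ℕ) :
    ∑ p ∈ PF S ε s X, ((Real.log p : ℝ) : ℂ) * ((jacobiSym (n : ℤ) p : ℤ) : ℂ) =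
      1 / 2 * (FS S ε n ((⌈X⌉₊ - 1 : ℕ) : ℝ) + s * FS S ε (-n) ((⌈X⌉₊ - 1 : ℕ) : ℝ)) := by
  classical
  have hc : 1 ≤ ⌈X⌉₊ := Nat.one_le_iff_ne_zero.2 (by
    rw [Ne, Nat.ceil_eq_zero]
    linarith)
  unfold FS
  rw [Nat.floor_natCast, Finset.mul_sum, ← Finset.sum_add_distrib, Finset.mul_sum]
  have hsub : PF S ε s X ⊆ Finset.Icc 1 (⌈X⌉₊ - 1) := by
    intro p hp
    obtain ⟨h1, h2, -⟩ := mem_PF.1 hp
    rw [Finset.mem_Icc]
    have := Nat.lt_ceil.2 h1
    exact ⟨h2.one_le, by omega⟩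
  rw [← Finset.sum_subset hsub]
  · refine Finset.sum_congr rfl fun p hp => ?_
    obtain ⟨h1, h2, h3, h4⟩ := mem_PF.1 hp
    have hodd : p ≠ 2 := by
      rintro rfl
      rcases hs with rfl | rfl <;> simp at h3
    have e1 : jacobiSym (-(n : ℤ)) p = s * jacobiSym n p := by
      have : (-(n : ℤ)) = -1 * n := by ring
      rw [this, jacobiSym.mul_left, jac_neg_one hs h3]
    have e2 : Pool.Agent.Helper368_LD.lp p = Real.log p := by
      unfold Pool.Agent.Helper368_LD.lp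
      rw [if_pos ⟨h2, hodd⟩]
    rw [if_pos h4, if_pos h4, e1, e2]
    rcases hs with rfl | rfl <;> push_cast <;> ring
  · intro p hp hnp
    by_cases h4 : ∀ l ∈ S, jacobiSym (l : ℤ) p = ε l
    · rw [if_pos h4, if_pos h4]
      unfold Pool.Agent.Helper368_LD.lp
      split_ifs with h5
      · obtain ⟨h5, h6⟩ := h5
        have h7 : (p : ℝ) < X := by
          rw [Finset.mem_Icc] at hp
          exact Nat.lt_ceil.1 (by omega)
        have h8 : ¬ ((p : ℤ) % 4 = s % 4) := fun h => hnp (mem_PF.2 ⟨h7, h5, h, h4⟩)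
        have hodd : p % 2 = 1 := by
          rcases h5.eq_two_or_odd with h | h
          · exact absurd h h6
          · exact h
        have h9 : (p : ℤ) % 4 = (-s) % 4 := by
          rcases hs with rfl | rfl <;> omega
        have e1 : jacobiSym (-(n : ℤ)) p = (-s) * jacobiSym n p := by
          have : (-(n : ℤ)) = -1 * n := by ring
          rw [this, jacobiSym.mul_left, jac_neg_one (s := -s) (by
            rcases hs with rfl | rfl
            · exact Or.inr rfl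
            · exact Or.inl (by norm_num)) h9]
        rw [e1]
        rcases hs with rfl | rfl <;> push_cast <;> ring
      · simp
    · rw [if_neg h4, if_neg h4]
      simp

/-- squares -/
lemma Sc_sq (S : Finset ℕ) (ε : ℕ → ℤ) {s : ℤ} (hs : s = 1 ∨ s = -1) {X : ℝ} (hX : 1 < X) {n : ℕ} (hn : 1 ≤ n)
    (hsq : IsSquare n) : ‖Sc s X (cpw S ε s X) n - ((MS S ε s X / Real.log X : ℝ) : ℂ)‖ ≤ Real.log n / Real.log X := by
  classical
  have hL : 0 < Real.log X := Real.log_pos hX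
  have e1 : Sc s X (cpw S ε s X) n - ((MS S ε s X / Real.log X : ℝ) : ℂ) =
      ((1 / Real.log X : ℝ) : ℂ) * ∑ p ∈ PF S ε s X, ((Real.log p : ℝ) : ℂ) * (((jacobiSym (n : ℤ) p : ℤ) : ℂ) - 1) := by
    rw [Sc_cpw S ε hs]
    unfold MS
    simp only [mul_sub, mul_one, Finset.sum_sub_distrib]
    push_cast
    ring
  have h1 : ∀ p ∈ PF S ε s X, ‖((Real.log p : ℝ) : ℂ) * (((jacobiSym (n : ℤ) p : ℤ) : ℂ) - 1)‖ ≤
      if p ∈ n.primeFactors then Real.log p else 0 := by
    intro p hp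
    obtain ⟨-, h2, -, -⟩ := mem_PF.1 hp
    have hlog : 0 ≤ Real.log (p : ℝ) := Real.log_natCast_nonneg p
    obtain ⟨m, hm⟩ := hsq
    have e2 : jacobiSym (n : ℤ) p = jacobiSym (m : ℤ) p ^ 2 := by
      rw [hm]
      push_cast
      rw [jacobiSym.mul_left, sq]
    by_cases hd : p ∣ n
    · rw [if_pos (Nat.mem_primeFactors.2 ⟨h2, hd, by omega⟩)]
      have h3 : p ∣ m := by
        rw [hm] at hd
        rcases h2.dvd_mul.1 hd with h | h <;> exact h
      have hne : NeZero p := ⟨h2.ne_zero⟩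
      have e3 : jacobiSym (m : ℤ) p = 0 := by
        rw [jacobiSym.eq_zero_iff_not_coprime, Int.gcd_natCast_natCast]
        intro hc
        have hc2 : Nat.Coprime p m := Nat.coprime_comm.1 hc
        have := Nat.Coprime.eq_one_of_dvd hc2 h3
        exact h2.one_lt.ne' this
      rw [e2, e3, norm_mul, Complex.norm_real, Real.norm_of_nonneg hlog]
      simp
    · have h3 : ¬ p ∈ n.primeFactors := fun h => hd (Nat.dvd_of_mem_primeFactors h)
      rw [if_neg h3]
      have hcop : Nat.Coprime m p := by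
        rw [Nat.coprime_comm, Nat.Prime.coprime_iff_not_dvd h2]
        intro h
        exact hd (by rw [hm]; exact h.mul_right m)
      have e3 : jacobiSym (m : ℤ) p ^ 2 = 1 := by
        apply jacobiSym.sq_one
        rw [Int.gcd_natCast_natCast]
        exact hcop
      rw [e2, e3]
      simp
  rw [e1, norm_mul, Complex.norm_real, Real.norm_of_nonneg (by positivity), one_div, inv_mul_le_iff₀ hL,
    mul_div_cancel₀ _ hL.ne']
  refine (norm_sum_le _ _).trans ((Finset.sum_le_sum h1).trans ?_)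
  rw [← Finset.sum_filter]
  have h2 : ∑ p ∈ (PF S ε s X).filter (fun p => p ∈ n.primeFactors), Real.log (p : ℝ) ≤
      ∑ p ∈ n.primeFactors, Real.log (p : ℝ) := by
    refine Finset.sum_le_sum_of_subset_of_nonneg (fun p hp => (Finset.mem_filter.1 hp).2) fun p _ _ =>
      Real.log_natCast_nonneg p
  refine h2.trans ?_
  rw [← Real.log_prod (s := n.primeFactors) (f := fun p => (p : ℝ)) (fun p hp => by
    have := (Nat.prime_of_mem_primeFactors hp).ne_zero
    exact_mod_cast this)]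
  have h3 : ∏ p ∈ n.primeFactors, p ≤ n := Nat.le_of_dvd hn (Nat.prod_primeFactors_dvd n)
  have h4 : 0 < ∏ p ∈ n.primeFactors, p := Finset.prod_pos fun p hp => (Nat.prime_of_mem_primeFactors hp).pos
  refine Real.log_le_log ?_ ?_
  · have : (0 : ℝ) < ((∏ p ∈ n.primeFactors, p : ℕ) : ℝ) := by exact_mod_cast h4
    simpa using this
  · have : ((∏ p ∈ n.primeFactors, p : ℕ) : ℝ) ≤ n := by exact_mod_cast h3
    simpa using this

/-- the densities: `0` on `S` and `1` off `S` -/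
def gS (S : Finset ℕ) (g : ℕ → ℝ) (h0 : ∀ p, 0 ≤ g p) (h1 : ∀ p, g p ≤ 1) (D : ℝ) (hD : 0 ≤ D)
    (hb : ∀ p : ℕ, p.Prime → 1 - g p ≤ D / p) : Gm where
  g p := if p ∈ S then 0 else g p
  nn p := by
    split_ifs
    · exact le_rfl
    · exact h0 p
  le1 p := by
    split_ifs
    · exact zero_le_one
    · exact h1 p
  D := D + ∑ p ∈ S, (p : ℝ)
  D0 := by positivity
  bd p hp := by
    have hp0 : (0 : ℝ) < p := by exact_mod_cast hp.pos
    have h2 : 0 ≤ ∑ p ∈ S, (p : ℝ) := Finset.sum_nonneg fun _ _ => Nat.cast_nonneg _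
    split_ifs with h
    · rw [sub_zero, le_div_iff₀ hp0, one_mul]
      have h3 : (p : ℝ) ≤ ∑ p ∈ S, (p : ℝ) := Finset.single_le_sum (f := fun p : ℕ => (p : ℝ))
        (fun _ _ => Nat.cast_nonneg _) h
      linarith
    · refine (hb p hp).trans (div_le_div_of_nonneg_right (by linarith) hp0.le)

/-- the densities for primes -/
def gP (S : Finset ℕ) : Gm := gS S (fun _ => 1) (fun _ => zero_le_one) (fun _ => le_rfl) 0 le_rfl (fun p _ => by simp)

lemma af_gP {S : Finset ℕ} {n : ℕ} (h : ¬ ∃ p ∈ S, p ∣ n) : af (gP S) n = 1 := by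
  unfold af
  refine Finset.prod_eq_one fun p hp => ?_
  have : p ∉ S := fun hS => h ⟨p, hS, Nat.dvd_of_mem_primeFactors hp⟩
  show (if p ∈ S then (0 : ℝ) else 1) = 1
  rw [if_neg this]

end

end Pool.Agent.J4.H50.EG
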