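import Pool.Agent.J4.H50.EG.L5

set_option autoImplicit false

/-! The prime conductors: the sum of the remainders. -/

namespace Pool.Agent.J4.H50.EG

open Complex hiding im
open Filter Topology MeasureTheory Set
open Pool.Agent.N879.QM hiding meas_gA meas_al meas_Ak meas_MT meas_SN E3 MT af SN S_COEF S_ZR S_EUL
open Pool.Agent.J4.H50.EA

noncomputable section

/-- nonsquares -/
lemma Sc_nsq (S : Finset ℕ) (ε : ℕ → ℤ) (hS : ∀ l ∈ S, l.Prime) (hε : ∀ l ∈ S, ε l = 1 ∨ ε l = -1) (A B : ℕ) :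
    ∃ X₀ : ℝ, ∀ (s : ℤ) (X : ℝ) (n : ℕ), s = 1 ∨ s = -1 → X₀ ≤ X → 1 ≤ n → ¬ IsSquare n → (¬ ∃ p ∈ S, p ∣ n) →
      4 * (n : ℝ) ≤ (Real.log X / 2) ^ B → ‖Sc s X (cpw S ε s X) n‖ ≤ 20 * X * 2 ^ A / Real.log X ^ A := by
  obtain ⟨y0, h⟩ := FS_SW ε A S hS hε B
  refine ⟨max (y0 + 1) 20, fun s X n hs hX hn hsq hcop hB => ?_⟩
  have hX0 : y0 + 1 ≤ X := (le_max_left _ _).trans hX
  have hX4 : 20 ≤ X := (le_max_right _ _).trans hX
  have hXp : 0 < X := by linarith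
  obtain ⟨y, hy⟩ : ∃ y : ℝ, y = ((⌈X⌉₊ - 1 : ℕ) : ℝ) := ⟨_, rfl⟩
  have hc : 1 ≤ ⌈X⌉₊ := Nat.one_le_iff_ne_zero.2 (by
    rw [Ne, Nat.ceil_eq_zero]
    linarith)
  have hy1 : X - 1 ≤ y := by
    rw [hy, Nat.cast_sub hc]
    have := Nat.le_ceil X
    push_cast
    linarith
  have hy2 : y ≤ X := by
    rw [hy, Nat.cast_sub hc]
    have := (Nat.ceil_lt_add_one hXp.le).le
    push_cast
    linarith
  have hy0 : 0 < y := by linarith
  have hlX : 2 ≤ Real.log X := by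
    rw [Real.le_log_iff_exp_le hXp]
    have h1 := Real.exp_one_lt_d9
    have h2 : Real.exp 2 = Real.exp 1 * Real.exp 1 := by rw [← Real.exp_add]; norm_num
    have h3 := Real.exp_pos 1
    nlinarith
  have hly : Real.log X / 2 ≤ Real.log y := by
    have h1 : Real.log X / 2 = Real.log (√X) := (Real.log_sqrt hXp.le).symm
    rw [h1]
    refine Real.log_le_log (Real.sqrt_pos.2 hXp) ?_
    have h2 : √X ^ 2 = X := Real.sq_sqrt hXp.le
    have h3 : 2 ≤ √X := by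
      rw [Real.le_sqrt (by norm_num) hXp.le]
      linarith
    nlinarith
  have hl0 : 0 < Real.log X / 2 := by linarith
  have hBy : 4 * (n : ℝ) ≤ Real.log y ^ B := hB.trans (pow_le_pow_left₀ hl0.le hly B)
  have hq1 : ¬ IsSquare ((n : ℕ) : ℤ) := fun h1 => hsq (Int.isSquare_natCast_iff.1 h1)
  have hq2 : ¬ IsSquare (-((n : ℕ) : ℤ)) := by
    rintro ⟨a, ha⟩
    have h1 : (0 : ℤ) < n := by exact_mod_cast hn
    nlinarith [mul_self_nonneg a]
  have hc1 : ∀ l ∈ S, ¬ (l : ℤ) ∣ ((n : ℕ) : ℤ) := fun l hl hd => hcop ⟨l, hl, by exact_mod_cast hd⟩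
  have hc2 : ∀ l ∈ S, ¬ (l : ℤ) ∣ -((n : ℕ) : ℤ) := fun l hl hd => hc1 l hl ((dvd_neg).1 hd)
  have a1 := h y (by linarith) _ hq1 hc1 (by rw [Int.natAbs_natCast]; exact hBy)
  have a2 := h y (by linarith) _ hq2 hc2 (by rw [Int.natAbs_neg, Int.natAbs_natCast]; exact hBy)
  have hpw : 0 < (Real.log X / 2) ^ A := by positivity
  have b1 : 20 * y / Real.log y ^ A ≤ 20 * X * 2 ^ A / Real.log X ^ A := by
    calc 20 * y / Real.log y ^ A ≤ 20 * X / (Real.log X / 2) ^ A :=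
          div_le_div₀ (by positivity) (by linarith) hpw (pow_le_pow_left₀ hl0.le hly A)
      _ = _ := by
          rw [div_pow]
          field_simp
  rw [Sc_cpw S ε hs, PF_FS S ε hs (by linarith), ← hy, norm_mul, norm_mul, Complex.norm_real,
    Real.norm_of_nonneg (by positivity)]
  have h7 : ‖(1 / 2 : ℂ)‖ = 1 / 2 := by norm_num
  have h8 : ‖FS S ε n y + s * FS S ε (-n) y‖ ≤ 2 * (20 * X * 2 ^ A / Real.log X ^ A) := by
    refine (norm_add_le _ _).trans ?_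
    have hen : ‖((s : ℤ) : ℂ)‖ = 1 := by
      rcases hs with h5 | h5 <;> rw [h5] <;> simp
    rw [norm_mul, hen, one_mul]
    linarith
  rw [h7]
  have h9 : 1 / Real.log X ≤ 1 := by
    rw [div_le_one (by linarith)]
    linarith
  have h10 : 0 ≤ 1 / 2 * ‖FS S ε n y + s * FS S ε (-n) y‖ := by positivity
  calc 1 / Real.log X * (1 / 2 * ‖FS S ε n y + s * FS S ε (-n) y‖)
      ≤ 1 * (1 / 2 * ‖FS S ε n y + s * FS S ε (-n) y‖) := mul_le_mul_of_nonneg_right h9 h10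
    _ ≤ _ := by linarith

/-- the size of the main term -/
lemma MS_le (S : Finset ℕ) (ε : ℕ → ℤ) {s : ℤ} (hs : s = 1 ∨ s = -1) {X : ℝ} (hX : 1 < X) :
    ‖((MS S ε s X / Real.log X : ℝ) : ℂ)‖ ≤ X := by
  have h1 := Sc_le (s := s) hX.le (cpw_le S ε s hX) 1
  have h2 := Sc_sq S ε hs hX le_rfl ⟨1, rfl⟩
  rw [Nat.cast_one, Real.log_one, zero_div] at h2
  have h3 := norm_le_zero_iff.1 h2
  rw [sub_eq_zero] at h3
  rw [← h3]
  exact h1

/-- powers of the logarithm -/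
lemma log_pow_le (a : ℕ) {t : ℝ} (ht : 0 < t) : ∀ᶠ X : ℝ in atTop, Real.log X ^ a ≤ X ^ t := by
  have h1 := (isLittleO_log_rpow_rpow_atTop (a : ℝ) ht).def one_pos
  filter_upwards [h1, eventually_ge_atTop 1] with X hX hX1
  have hl : 0 ≤ Real.log X := Real.log_nonneg hX1
  rw [Real.norm_of_nonneg (by positivity), Real.norm_of_nonneg (by positivity), Real.rpow_natCast, one_mul] at hX
  exact hX

/-- the sum of the remainders -/
theorem W_bound (hAV : S_AVG) (S : Finset ℕ) (ε : ℕ → ℤ) (hS : ∀ l ∈ S, l.Prime) (hε : ∀ l ∈ S, ε l = 1 ∨ ε l = -1)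
    (k a : ℕ) : ∃ C X₀ : ℝ, 0 < C ∧ ∀ (s : ℤ) (X : ℝ) (Y : ℕ), s = 1 ∨ s = -1 → X₀ ≤ X → 1 ≤ Y →
      (Y : ℝ) ^ (k + 1) ≤ X ^ (1 / 100 : ℝ) →
      ∑ n ∈ Finset.Icc 1 Y, ((Nat.finMulAntidiag k n).card : ℝ) *
        (‖Rc (gP S) S s X (cpw S ε s X) ((MS S ε s X / Real.log X : ℝ) : ℂ) n‖ ^ 2 / n) ≤
        C * (X ^ 2 / Real.log X ^ a) := by
  classical
  obtain ⟨C₁, hC₁, ht⟩ := tail k hAV
  obtain ⟨b, hb⟩ : ∃ b : ℕ, b = 8 * a := ⟨_, rfl⟩
  obtain ⟨A, hA⟩ : ∃ A : ℕ, A = b * k + a := ⟨_, rfl⟩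
  obtain ⟨X₁, hX₁⟩ := Sc_nsq S ε hS hε A (b + 1)
  have ev1 := log_pow_le a (show (0 : ℝ) < 1 / 100 by norm_num)
  have ev2 : ∀ᶠ X : ℝ in atTop, (8 : ℝ) * 2 ^ b ≤ Real.log X := Real.tendsto_log_atTop.eventually_ge_atTop _
  obtain ⟨X₂, hX₂⟩ := eventually_atTop.1 (ev1.and ev2)
  refine ⟨1 + 400 * 4 ^ A + C₁ * (2 ^ a + 1), max (max X₁ X₂) 3, by positivity, fun s X Y hs hX hY hYX => ?_⟩
  have hX1 : X₁ ≤ X := (le_max_left _ _).trans ((le_max_left _ _).trans hX)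
  obtain ⟨v1, v2⟩ := hX₂ X ((le_max_right _ _).trans ((le_max_left _ _).trans hX))
  have hX3 : 3 ≤ X := (le_max_right _ _).trans hX
  have hXp : 0 < X := by linarith
  have hX1' : 1 ≤ X := by linarith
  have hX1'' : 1 < X := by linarith
  obtain ⟨ℓ, hℓ⟩ : ∃ ℓ : ℝ, ℓ = Real.log X := ⟨_, rfl⟩
  rw [← hℓ] at v1 v2 ⊢
  have h2b : (1 : ℝ) ≤ 2 ^ b := one_le_pow₀ (by norm_num)
  have hℓ8 : 8 ≤ ℓ := by linarith
  have hℓ0 : 0 < ℓ := by linarith
  obtain ⟨g, hg⟩ : ∃ g : ℕ, g = ⌊ℓ⌋₊ := ⟨_, rfl⟩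
  have hg1 : (g : ℝ) ≤ ℓ := by rw [hg]; exact Nat.floor_le hℓ0.le
  have hg2 : ℓ / 2 ≤ g := by
    have := Nat.lt_floor_add_one ℓ
    rw [← hg] at this
    linarith
  have hg0 : (0 : ℝ) < g := by linarith
  have hg3 : 1 ≤ g := by exact_mod_cast (by exact_mod_cast hg0 : 0 < g)
  obtain ⟨L, hLd⟩ : ∃ L : ℕ, L = g ^ b := ⟨_, rfl⟩
  have hL1 : 1 ≤ L := by rw [hLd]; exact Nat.one_le_pow _ _ hg3
  have hLℓ : (L : ℝ) ≤ ℓ ^ b := by
    rw [hLd]
    push_cast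
    exact pow_le_pow_left₀ hg0.le hg1 b
  have hL4 : 4 * (L : ℝ) ≤ (ℓ / 2) ^ (b + 1) := by
    have h1 : (ℓ / 2) ^ (b + 1) = ℓ ^ b * (ℓ / (2 * 2 ^ b)) := by
      rw [div_pow, pow_succ, pow_succ]
      field_simp
    rw [h1]
    have h2 : 4 ≤ ℓ / (2 * 2 ^ b) := by
      rw [le_div_iff₀ (by positivity)]
      linarith
    have h3 : 0 < ℓ ^ b := by positivity
    nlinarith
  obtain ⟨R, hR⟩ : ∃ R : ℝ, R = 400 * 4 ^ A * (X ^ 2 / ℓ ^ (2 * A)) := ⟨_, rfl⟩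
  have hR0 : 0 ≤ R := by rw [hR]; positivity
  -- the pointwise bound
  have hpt : ∀ n ∈ Finset.Icc 1 Y, ((Nat.finMulAntidiag k n).card : ℝ) *
      (‖Rc (gP S) S s X (cpw S ε s X) ((MS S ε s X / ℓ : ℝ) : ℂ) n‖ ^ 2 / n) ≤
      ((Nat.finMulAntidiag k n).card : ℝ) * 1 + ((if n ≤ L then ((Nat.finMulAntidiag k n).card : ℝ) * R else 0) +
      ((Nat.finMulAntidiag k n).card : ℝ) * (if L < n then ‖Sc s X (cpw S ε s X) n‖ ^ 2 / n else 0)) := by
    intro n hn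
    rw [Finset.mem_Icc] at hn
    have hn0 : (1 : ℝ) ≤ n := by exact_mod_cast hn.1
    have key : ‖Rc (gP S) S s X (cpw S ε s X) ((MS S ε s X / ℓ : ℝ) : ℂ) n‖ ^ 2 / n ≤
        1 + ((if n ≤ L then R else 0) + (if L < n then ‖Sc s X (cpw S ε s X) n‖ ^ 2 / n else 0)) := by
      have hI1 : 0 ≤ (if n ≤ L then R else 0) := by split_ifs <;> first | exact hR0 | exact le_rfl
      have hI2 : 0 ≤ (if L < n then ‖Sc s X (cpw S ε s X) n‖ ^ 2 / n else 0) := by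
        split_ifs
        · positivity
        · exact le_rfl
      unfold Rc
      by_cases hcop : ∃ p ∈ S, p ∣ n
      · rw [if_pos hcop, norm_zero]
        simp only [ne_eq, OfNat.ofNat_ne_zero, not_false_eq_true, zero_pow, zero_div]
        linarith
      · rw [if_neg hcop]
        unfold Rm
        by_cases hsq : IsSquare n
        · rw [if_pos hsq, af_gP hcop]
          have h1 := Sc_sq S ε hs hX1'' hn.1 hsq
          rw [← hℓ] at h1
          have h2 : Real.log n / ℓ ≤ 1 := by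
            rw [div_le_one hℓ0, hℓ]
            refine Real.log_le_log (by linarith) ?_
            have h3 : (n : ℝ) ≤ Y := by exact_mod_cast hn.2
            have hY1 : (1 : ℝ) ≤ Y := by exact_mod_cast hY
            have h4 : (Y : ℝ) ≤ (Y : ℝ) ^ (k + 1) := le_self_pow₀ hY1 (by omega)
            have h5 : X ^ (1 / 100 : ℝ) ≤ X := by
              calc X ^ (1 / 100 : ℝ) ≤ X ^ (1 : ℝ) := Real.rpow_le_rpow_of_exponent_le hX1' (by norm_num)
                _ = X := Real.rpow_one X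
            linarith
          have h6 : ‖Sc s X (cpw S ε s X) n - ((MS S ε s X / ℓ : ℝ) : ℂ) * ((1 : ℝ) : ℂ)‖ ≤ 1 := by
            rw [Complex.ofReal_one, mul_one]
            exact h1.trans h2
          have h7 : ‖Sc s X (cpw S ε s X) n - ((MS S ε s X / ℓ : ℝ) : ℂ) * ((1 : ℝ) : ℂ)‖ ^ 2 / n ≤ 1 := by
            rw [div_le_one (by linarith)]
            exact (pow_le_one₀ (norm_nonneg _) h6).trans hn0
          linarith
        · rw [if_neg hsq, mul_zero, sub_zero]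
          by_cases hL : n ≤ L
          · rw [if_pos hL, if_neg (by omega)]
            have h1 := hX₁ s X n hs hX1 hn.1 hsq hcop (by
              rw [← hℓ]
              have : (n : ℝ) ≤ L := by exact_mod_cast hL
              linarith)
            rw [← hℓ] at h1
            have h2 : ‖Sc s X (cpw S ε s X) n‖ ^ 2 ≤ R := by
              refine (pow_le_pow_left₀ (norm_nonneg _) h1 2).trans (le_of_eq ?_)
              rw [hR, div_pow, mul_pow, mul_pow, ← pow_mul, ← pow_mul, mul_comm A 2,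
                show (4 : ℝ) ^ A = 2 ^ (2 * A) by rw [pow_mul]; norm_num]
              ring
            have h3 : ‖Sc s X (cpw S ε s X) n‖ ^ 2 / n ≤ ‖Sc s X (cpw S ε s X) n‖ ^ 2 :=
              div_le_self (sq_nonneg _) hn0
            linarith
          · rw [if_neg hL, if_pos (by omega)]
            linarith
    have hcard : (0 : ℝ) ≤ ((Nat.finMulAntidiag k n).card : ℝ) := Nat.cast_nonneg _
    refine (mul_le_mul_of_nonneg_left key hcard).trans (le_of_eq ?_)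
    rw [mul_add, mul_add]
    congr 2
    split_ifs
    · rfl
    · rw [mul_zero]
  refine (Finset.sum_le_sum hpt).trans ?_
  rw [Finset.sum_add_distrib, Finset.sum_add_distrib]
  -- the first sum
  have s1 : ∑ n ∈ Finset.Icc 1 Y, ((Nat.finMulAntidiag k n).card : ℝ) * 1 ≤ (Y : ℝ) ^ k := by
    rw [← small k Y Y le_rfl (fun _ => (1 : ℝ)), Finset.sum_const, nsmul_eq_mul, mul_one]
    have h1 : ((tup k Y).filter (fun n => pr n ≤ Y)).card ≤ Y ^ k := by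
      rw [← tup_card k Y]
      exact Finset.card_le_card (Finset.filter_subset _ _)
    exact_mod_cast h1
  have s2 : ∑ n ∈ Finset.Icc 1 Y, (if n ≤ L then ((Nat.finMulAntidiag k n).card : ℝ) * R else 0) ≤ (L : ℝ) ^ k * R := by
    rw [← Finset.sum_filter, ← Finset.sum_mul]
    refine mul_le_mul_of_nonneg_right ?_ hR0
    have h1 : ∑ n ∈ (Finset.Icc 1 Y).filter (fun n => n ≤ L), ((Nat.finMulAntidiag k n).card : ℝ) ≤
        ∑ n ∈ Finset.Icc 1 L, ((Nat.finMulAntidiag k n).card : ℝ) * 1 := by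
      simp only [mul_one]
      refine Finset.sum_le_sum_of_subset_of_nonneg (fun n hn => ?_) fun _ _ _ => Nat.cast_nonneg _
      rw [Finset.mem_filter, Finset.mem_Icc] at hn
      rw [Finset.mem_Icc]
      exact ⟨hn.1.1, hn.2⟩
    refine h1.trans ?_
    rw [← small k L L le_rfl (fun _ => (1 : ℝ)), Finset.sum_const, nsmul_eq_mul, mul_one]
    have h2 : ((tup k L).filter (fun n => pr n ≤ L)).card ≤ L ^ k := by
      rw [← tup_card k L]
      exact Finset.card_le_card (Finset.filter_subset _ _)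
    exact_mod_cast h2
  have s3 : ∑ n ∈ Finset.Icc 1 Y, ((Nat.finMulAntidiag k n).card : ℝ) *
      (if L < n then ‖Sc s X (cpw S ε s X) n‖ ^ 2 / n else 0) ≤
      C₁ * (X ^ 2 * (L : ℝ) ^ (-(1 / 8) : ℝ) + X ^ (7 / 4 : ℝ) * (Y : ℝ) ^ k) := by
    rw [← small k Y Y le_rfl (fun n => if L < n then ‖Sc s X (cpw S ε s X) n‖ ^ 2 / (n : ℝ) else 0),
      ← Finset.sum_filter]
    refine ht s X (cpw S ε s X) Y L _ hs hX1' (cpw_le S ε s hX1'') (by exact_mod_cast hL1)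
      ((Finset.filter_subset _ _).trans (Finset.filter_subset _ _)) fun n hn => ?_
    exact_mod_cast (Finset.mem_filter.1 hn).2.le
  -- sizes
  have hYk : (Y : ℝ) ^ k ≤ X ^ (1 / 100 : ℝ) := by
    refine le_trans ?_ hYX
    exact pow_le_pow_right₀ (by exact_mod_cast hY) (by omega)
  have hla : 0 < ℓ ^ a := by positivity
  obtain ⟨T, hT⟩ : ∃ T : ℝ, T = X ^ 2 / ℓ ^ a := ⟨_, rfl⟩
  rw [← hT]
  have hT0 : 0 < T := by rw [hT]; positivity
  have big : X ^ (7 / 4 + 1 / 100 : ℝ) ≤ T := by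
    rw [hT, le_div_iff₀ hla]
    calc X ^ (7 / 4 + 1 / 100 : ℝ) * ℓ ^ a ≤ X ^ (7 / 4 + 1 / 100 : ℝ) * X ^ (1 / 100 : ℝ) :=
          mul_le_mul_of_nonneg_left v1 (by positivity)
      _ = X ^ (7 / 4 + 1 / 100 + 1 / 100 : ℝ) := (Real.rpow_add hXp _ _).symm
      _ ≤ X ^ (2 : ℝ) := Real.rpow_le_rpow_of_exponent_le hX1' (by norm_num)
      _ = X ^ 2 := Real.rpow_two X
  have t1 : (Y : ℝ) ^ k ≤ T := by
    refine (hYk.trans ?_).trans big
    exact Real.rpow_le_rpow_of_exponent_le hX1' (by norm_num)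
  have t2 : (L : ℝ) ^ k * R ≤ 400 * 4 ^ A * T := by
    have h1 : (L : ℝ) ^ k ≤ ℓ ^ (b * k) := by
      rw [pow_mul]
      exact pow_le_pow_left₀ (by positivity) hLℓ k
    have h2 : ℓ ^ (b * k) * (X ^ 2 / ℓ ^ (2 * A)) ≤ T := by
      rw [hT, mul_div_assoc', div_le_div_iff₀ (by positivity) hla]
      have h3 : ℓ ^ (b * k) * ℓ ^ a ≤ ℓ ^ (2 * A) := by
        rw [← pow_add]
        exact pow_le_pow_right₀ (by linarith) (by omega)
      have h4 : 0 ≤ X ^ 2 := sq_nonneg X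
      nlinarith
    calc (L : ℝ) ^ k * R ≤ ℓ ^ (b * k) * R := mul_le_mul_of_nonneg_right h1 hR0
      _ = 400 * 4 ^ A * (ℓ ^ (b * k) * (X ^ 2 / ℓ ^ (2 * A))) := by rw [hR]; ring
      _ ≤ _ := mul_le_mul_of_nonneg_left h2 (by positivity)
  have t3 : X ^ 2 * (L : ℝ) ^ (-(1 / 8) : ℝ) ≤ 2 ^ a * T := by
    have h1 : (L : ℝ) ^ (-(1 / 8) : ℝ) = ((g : ℝ) ^ a)⁻¹ := by
      rw [hLd, hb]
      push_cast
      rw [← Real.rpow_natCast (g : ℝ) (8 * a), ← Real.rpow_mul hg0.le, ← Real.rpow_natCast (g : ℝ) a,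
        ← Real.rpow_neg hg0.le]
      congr 1
      push_cast
      ring
    have h2 : ((g : ℝ) ^ a)⁻¹ ≤ ((ℓ / 2) ^ a)⁻¹ :=
      inv_anti₀ (by positivity) (pow_le_pow_left₀ (by positivity) hg2 a)
    rw [h1]
    calc X ^ 2 * ((g : ℝ) ^ a)⁻¹ ≤ X ^ 2 * ((ℓ / 2) ^ a)⁻¹ := mul_le_mul_of_nonneg_left h2 (sq_nonneg X)
      _ = 2 ^ a * T := by
          rw [hT, div_pow]
          field_simp
  have t4 : X ^ (7 / 4 : ℝ) * (Y : ℝ) ^ k ≤ T := by
    refine le_trans ?_ big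
    rw [Real.rpow_add hXp]
    exact mul_le_mul_of_nonneg_left hYk (by positivity)
  have t5 := mul_le_mul_of_nonneg_left (add_le_add t3 t4) hC₁.le
  have e1 : (1 + 400 * 4 ^ A + C₁ * (2 ^ a + 1)) * T = T + (400 * 4 ^ A * T + C₁ * (2 ^ a * T + T)) := by ring
  rw [e1]
  exact add_le_add (s1.trans t1) (add_le_add (s2.trans t2) (s3.trans t5))

end

end Pool.Agent.J4.H50.EG
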