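import Pool.Agent.J4.H50.EG.L6

set_option autoImplicit false

/-! From mean squares to measures; the theorem on prime conductors. -/

namespace Pool.Agent.J4.H50.EG

open Complex hiding im
open Filter Topology MeasureTheory Set
open Pool.Agent.N879.QM hiding meas_gA meas_al meas_Ak meas_MT meas_SN E3 MT af SN S_COEF S_ZR S_EUL
open Pool.Agent.J4.H50.EA

noncomputable section

variable {k : ℕ}

lemma fac_ge {a : ℂ} (ha : ‖a‖ ≤ 1) {p : ℕ} (hp : 2 ≤ p) (t : ℝ) : 1 / 4 ≤ ‖(1 - a * (p : ℂ) ^ (-(pt t)))‖ := by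
  have hp0 : (0 : ℝ) < p := by exact_mod_cast (by omega : 0 < p)
  have h1 : ‖(p : ℂ) ^ (-(pt t))‖ ≤ 3 / 4 := by
    rw [Complex.norm_natCast_cpow_of_pos (by omega)]
    have e1 : (-(pt t)).re = -(1 / 2) := by
      unfold pt
      simp
    rw [e1]
    have h2 : ((p : ℝ) ^ (-(1 / 2) : ℝ)) ^ 2 ≤ (3 / 4) ^ 2 := by
      rw [← Real.rpow_natCast, ← Real.rpow_mul hp0.le]
      norm_num
      rw [Real.rpow_neg_one]
      have h3 : (2 : ℝ) ≤ p := by exact_mod_cast hp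
      have h4 : (p : ℝ)⁻¹ ≤ 2⁻¹ := inv_anti₀ (by norm_num) h3
      linarith
    exact le_of_sq_le_sq h2 (by norm_num)
  have h2 : ‖a * (p : ℂ) ^ (-(pt t))‖ ≤ 3 / 4 := by
    rw [norm_mul]
    calc ‖a‖ * ‖(p : ℂ) ^ (-(pt t))‖ ≤ 1 * (3 / 4) := mul_le_mul ha h1 (norm_nonneg _) zero_le_one
      _ = 3 / 4 := one_mul _
  have h3 := norm_sub_norm_le (1 : ℂ) (a * (p : ℂ) ^ (-(pt t)))
  rw [norm_one] at h3
  linarith

lemma PU_ge {ε : ℕ → ℂ} (hε : ∀ p, ‖ε p‖ ≤ 1) {U : Finset (ℕ × Fin k)} (hU : ∀ v ∈ U, v.1.Prime) (β : Fin k → ℝ) :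
    (1 / 4 : ℝ) ^ U.card ≤ ‖PU ε U β‖ := by
  unfold PU
  rw [norm_prod, ← Finset.prod_const]
  exact Finset.prod_le_prod (fun _ _ => by norm_num) fun u hu => fac_ge (hε _) (hU u hu).two_le _

/-- from the mean square to the measure -/
theorem meas_fin (γ : Gm) (hE : S_EUL γ) (hN : S_NS) {ε : ℕ → ℂ} (hε : ∀ p, ‖ε p‖ ≤ 1)
    {U : Finset (ℕ × Fin k)} (hU : ∀ v ∈ U, v.1.Prime) : ∃ C c : ℝ, 0 < C ∧ 0 < c ∧
    ∀ (A B L τ : ℝ) (M : ℂ) (F : (Fin k → ℝ) → ℂ), 1 ≤ A → 0 ≤ B → 0 < L → 0 < τ → Continuous F →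
    ∫⁻ β in Gd k A, ENNReal.ofReal (‖F β * PU ε U β - M * MT γ (im β)‖ ^ 2) ∂(mS k A) ≤ ENNReal.ofReal B →
    mS k A {β | τ < ‖(L : ℂ) * F β - (L * M) * (MT γ (im β) / PU ε U β)‖} ≤
      ENNReal.ofReal (C * A ^ (k - 1 / 2 : ℝ) + B / (c * τ / L) ^ 2) := by
  obtain ⟨C, hC, hN⟩ := hN k
  refine ⟨C, (1 / 4 : ℝ) ^ U.card, hC, by positivity, fun A B L τ M F hA hB hL hτ hF h => ?_⟩
  have hc : (0 : ℝ) < (1 / 4 : ℝ) ^ U.card := by positivity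
  have hsub : {β : Fin k → ℝ | τ < ‖(L : ℂ) * F β - (L * M) * (MT γ (im β) / PU ε U β)‖} ⊆ (Gd k A)ᶜ ∪
      ({β | (1 / 4 : ℝ) ^ U.card * τ / L < ‖F β * PU ε U β - M * MT γ (im β)‖} ∩ Gd k A) := by
    intro β hβ
    by_cases hG : β ∈ Gd k A
    · right
      refine ⟨?_, hG⟩
      simp only [mem_ofPred_eq] at hβ ⊢
      have h1 := PU_ge hε hU β
      have h2 : 0 < ‖PU ε U β‖ := lt_of_lt_of_le hc h1
      have h3 : PU ε U β ≠ 0 := norm_pos_iff.1 h2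
      have hL0 : (L : ℂ) ≠ 0 := by exact_mod_cast hL.ne'
      have e1 : F β * PU ε U β - M * MT γ (im β) =
          PU ε U β * (L : ℂ)⁻¹ * ((L : ℂ) * F β - (L * M) * (MT γ (im β) / PU ε U β)) := by
        field_simp
      rw [e1, norm_mul, norm_mul, norm_inv, Complex.norm_real, Real.norm_of_nonneg hL.le, div_lt_iff₀ hL]
      have e2 : ‖PU ε U β‖ * L⁻¹ * ‖(L : ℂ) * F β - (L * M) * (MT γ (im β) / PU ε U β)‖ * L =
          ‖PU ε U β‖ * ‖(L : ℂ) * F β - (L * M) * (MT γ (im β) / PU ε U β)‖ := by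
        field_simp
      rw [e2]
      exact mul_lt_mul' h1 hβ hτ.le h2
    · left
      exact hG
  refine (measure_mono hsub).trans ((measure_union_le _ _).trans ?_)
  rw [ENNReal.ofReal_add (by positivity) (by positivity)]
  refine add_le_add (hN A hA) ?_
  rw [← Measure.restrict_apply' (Gd_meas k A)]
  have hm : Measurable fun β : Fin k → ℝ => ‖F β * PU ε U β - M * MT γ (im β)‖ :=
    ((hF.mul (PU_cont ε hU)).measurable.sub (measurable_const.mul (meas_MT γ hE))).norm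
  exact cheb (g := fun β => ‖F β * PU ε U β - M * MT γ (im β)‖) hm.aemeasurable (by positivity) h

/-- the symbols as complex numbers -/
def epC (S : Finset ℕ) (ε : ℕ → ℤ) (p : ℕ) : ℂ := if p ∈ S then (ε p : ℂ) else 0

lemma epC_le {S : Finset ℕ} {ε : ℕ → ℤ} (hε : ∀ l ∈ S, ε l = 1 ∨ ε l = -1 ∨ ε l = 0) (p : ℕ) : ‖epC S ε p‖ ≤ 1 := by
  unfold epC
  split_ifs with h
  · rcases hε p h with h1 | h1 | h1 <;> rw [h1] <;> simp
  · rw [norm_zero]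
    exact zero_le_one

lemma Sc_supp {S : Finset ℕ} {ε : ℕ → ℤ} {s : ℤ} {X : ℝ} {c : ℕ → ℂ}
    (h : ∀ q, c q ≠ 0 → ∀ l ∈ S, vl s q l = (ε l : ℂ)) (p : ℕ) (hp : p ∈ S) (n : ℕ) :
    Sc s X c (p * n) = epC S ε p * Sc s X c n := by
  unfold Sc epC
  rw [if_pos hp, Finset.mul_sum]
  refine Finset.sum_congr rfl fun q _ => ?_
  by_cases hq : c q = 0
  · rw [hq]
    ring
  · have e1 : vl s q (p * n) = vl s q p * vl s q n := by
      unfold vl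
      rw [Nat.cast_mul, map_mul]
    rw [e1, h q hq p hp]
    ring

/-- **Prime conductors.** -/
theorem prime_fin (hMB : S_MB) (hP : S_P1) (hO : S_OPB) (hT : S_TEL) (hc : S_CTS) (hAV : S_AVG) (hFL : S_FL) (hZT : S_ZET)
    (hN : S_NS) (S : Finset ℕ) (hS : ∀ l ∈ S, l.Prime) (ε : ℕ → ℤ) (hε : ∀ l ∈ S, ε l = 1 ∨ ε l = -1) (k : ℕ) (θ : ℝ)
    (hk : 1 ≤ k) (hθ : 0 < θ) (hθ1 : θ ≤ 1) (m : ℕ) (hm : 8 * k + 1 ≤ m) (a : ℕ) :
    ∃ X₀ : ℝ, ∀ (s : ℤ) (X : ℝ), s = 1 ∨ s = -1 → X₀ ≤ X →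
      mS k (X ^ θ) {β | X / Real.log X ^ a < ‖(Real.log X : ℂ) * FW k s θ m (cpw S ε s X) X β -
        (MS S ε s X : ℂ) * (MT (gP S) (im β) / PU (epC S ε) (US k S) β)‖} ≤
        ENNReal.ofReal (X ^ (k * θ) / Real.log X ^ a) := by
  have hE := t_EUL (gP S)
  have hCO := Coef.t_COEF (gP S) hFL
  have hZR := t_ZR (gP S) hZT hE
  have hε' := epC_le (S := S) (ε := ε) fun l hl => (hε l hl).imp_right Or.inl
  have hU : ∀ v ∈ US k S, v.1.Prime := fun v hv => hS v.1 (Finset.mem_product.1 hv).1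
  obtain ⟨C, δ, X₁, Yf, hC, hδ, hX₁, hYf, hA⟩ := asmL (gP S) S hS (fun p hp => by
    show (if p ∈ S then (0 : ℝ) else 1) = 0
    rw [if_pos hp]) (epC S ε) hε' hMB hP hO hT hc hAV hCO hZR hE k θ hk hθ hθ1 m hm
  obtain ⟨a', ha'⟩ : ∃ a' : ℕ, a' = 3 * a + 3 := ⟨_, rfl⟩
  obtain ⟨C₂, X₂, hC₂, hW⟩ := W_bound hAV S ε hS hε k a'
  obtain ⟨C₃, c, hC₃, hc0, hF⟩ := meas_fin (gP S) hE hN hε' hU
  have ev1 := log_pow_le a' hδ
  have ev2 : ∀ᶠ X : ℝ in atTop, 2 * C * (1 + C₂) / c ^ 2 + 1 ≤ Real.log X :=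
    Real.tendsto_log_atTop.eventually_ge_atTop _
  have ev3 := log_pow_le (a + 1) (show 0 < θ / 2 by positivity)
  have ev4 : ∀ᶠ X : ℝ in atTop, 2 * C₃ ≤ Real.log X := Real.tendsto_log_atTop.eventually_ge_atTop _
  obtain ⟨X₃, hX₃⟩ := eventually_atTop.1 ((ev1.and ev2).and (ev3.and ev4))
  refine ⟨max (max X₁ X₂) (max X₃ 3), fun s X hs hX => ?_⟩
  have hX1 : X₁ ≤ X := (le_max_left _ _).trans ((le_max_left _ _).trans hX)
  have hX2 : X₂ ≤ X := (le_max_right _ _).trans ((le_max_left _ _).trans hX)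
  obtain ⟨⟨v1, v2⟩, v3, v4⟩ := hX₃ X ((le_max_left _ _).trans ((le_max_right _ _).trans hX))
  have hX3 : 3 ≤ X := (le_max_right _ _).trans ((le_max_right _ _).trans hX)
  have hX0 : 0 < X := by linarith
  have hX11 : 1 < X := by linarith
  obtain ⟨ℓ, hℓ⟩ : ∃ ℓ : ℝ, ℓ = Real.log X := ⟨_, rfl⟩
  have hMS := MS_le S ε hs hX11
  have hWX := hW s X (Yf X) hs hX2 (hYf X hX1).1 (hYf X hX1).2
  rw [← hℓ] at v1 v2 v3 v4 hMS hWX ⊢
  have hℓ1 : 1 ≤ ℓ := le_trans (by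
    have : 0 ≤ 2 * C * (1 + C₂) / c ^ 2 := by positivity
    linarith) v2
  have hℓ0 : 0 < ℓ := by linarith
  have h1 := hA s X (cpw S ε s X) ((MS S ε s X / ℓ : ℝ) : ℂ) hs hX1 (cpw_le S ε s hX11) hMS
    (fun p hp n _ => Sc_supp (fun q hq l hl => by
      unfold cpw at hq
      split_ifs at hq with h
      · exact h.2.2 l hl
      · exact absurd rfl hq) p hp n)
  obtain ⟨T, hT'⟩ : ∃ T : ℝ, T = X ^ 2 / ℓ ^ a' := ⟨_, rfl⟩
  rw [← hT'] at hWX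
  have hla : 0 < ℓ ^ a' := by positivity
  have hT0 : 0 < T := by rw [hT']; positivity
  have h2 : X ^ (2 - δ) ≤ T := by
    rw [hT', le_div_iff₀ hla]
    calc X ^ (2 - δ) * ℓ ^ a' ≤ X ^ (2 - δ) * X ^ δ := mul_le_mul_of_nonneg_left v1 (by positivity)
      _ = X ^ (2 - δ + δ) := (Real.rpow_add hX0 _ _).symm
      _ = X ^ 2 := by rw [sub_add_cancel, Real.rpow_two]
  have h3 := h1.trans (ENNReal.ofReal_le_ofReal (mul_le_mul_of_nonneg_left (add_le_add h2 hWX)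
    (by positivity : 0 ≤ C * X ^ (k * θ))))
  have hA1 : 1 ≤ X ^ θ := Real.one_le_rpow hX11.le hθ.le
  have h4 := hF (X ^ θ) _ ℓ (X / ℓ ^ a) _ _ hA1 (by positivity) hℓ0 (by positivity) (FW_cont hc k s θ m (cpw S ε s X) X) h3
  have e1 : ((ℓ : ℝ) : ℂ) * ((MS S ε s X / ℓ : ℝ) : ℂ) = (MS S ε s X : ℂ) := by
    rw [← Complex.ofReal_mul, mul_div_cancel₀ _ hℓ0.ne']
  rw [e1] at h4
  refine h4.trans (ENNReal.ofReal_le_ofReal ?_)
  have hla1 : 0 < ℓ ^ a := by positivity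
  -- the first part
  have g1 : C₃ * (X ^ θ) ^ (k - 1 / 2 : ℝ) ≤ X ^ (k * θ) / ℓ ^ a / 2 := by
    have e2 : (X ^ θ) ^ (k - 1 / 2 : ℝ) = X ^ (k * θ) * X ^ (-(θ / 2)) := by
      rw [← Real.rpow_mul hX0.le, ← Real.rpow_add hX0]
      congr 1
      ring
    have e3 : X ^ (-(θ / 2)) ≤ (ℓ ^ (a + 1))⁻¹ := by
      rw [Real.rpow_neg hX0.le]
      exact inv_anti₀ (by positivity) v3
    rw [e2]
    calc C₃ * (X ^ (k * θ) * X ^ (-(θ / 2))) ≤ C₃ * (X ^ (k * θ) * (ℓ ^ (a + 1))⁻¹) :=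
          mul_le_mul_of_nonneg_left (mul_le_mul_of_nonneg_left e3 (by positivity)) hC₃.le
      _ = X ^ (k * θ) / ℓ ^ a * (C₃ / ℓ) := by
          rw [pow_succ]
          field_simp
      _ ≤ X ^ (k * θ) / ℓ ^ a * (1 / 2) := by
          refine mul_le_mul_of_nonneg_left ?_ (by positivity)
          rw [div_le_div_iff₀ hℓ0 (by norm_num)]
          linarith
      _ = _ := by ring
  have g2 : C * X ^ (k * θ) * (T + C₂ * T) / (c * (X / ℓ ^ a) / ℓ) ^ 2 ≤ X ^ (k * θ) / ℓ ^ a / 2 := by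
    have e2 : C * X ^ (k * θ) * (T + C₂ * T) / (c * (X / ℓ ^ a) / ℓ) ^ 2 =
        X ^ (k * θ) / ℓ ^ a * (C * (1 + C₂) / c ^ 2 / ℓ) := by
      have e3 : ℓ ^ a' = ℓ ^ a * (ℓ ^ a) ^ 2 * ℓ ^ 2 * ℓ := by
        rw [ha']
        ring
      rw [hT', e3]
      field_simp
    rw [e2]
    have e4 : C * (1 + C₂) / c ^ 2 / ℓ ≤ 1 / 2 := by
      rw [div_le_div_iff₀ hℓ0 (by norm_num)]
      have : 2 * C * (1 + C₂) / c ^ 2 = C * (1 + C₂) / c ^ 2 * 2 := by ring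
      linarith
    calc X ^ (k * θ) / ℓ ^ a * (C * (1 + C₂) / c ^ 2 / ℓ) ≤ X ^ (k * θ) / ℓ ^ a * (1 / 2) :=
          mul_le_mul_of_nonneg_left e4 (by positivity)
      _ = _ := by ring
  linarith

end

end Pool.Agent.J4.H50.EG
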