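import Pool.Agent.J4.H50.EG.L7
import Pool.Agent.Cov.PNT

set_option autoImplicit false

/-! The number of primes with prescribed symbols. -/

namespace Pool.Agent.J4.H50.EG

open Complex hiding im
open Filter Topology MeasureTheory Set
open Pool.Agent.N879.QM hiding meas_gA meas_al meas_Ak meas_MT meas_SN E3 MT af SN S_COEF S_ZR S_EUL
open Pool.Agent.J4.H50.EA

noncomputable section

lemma FS_nsq_lim (S : Finset ℕ) (ε : ℕ → ℤ) (hS : ∀ l ∈ S, l.Prime) (hε : ∀ l ∈ S, ε l = 1 ∨ ε l = -1) (D : ℤ)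
    (hD : ¬ IsSquare D) (hc : ∀ l ∈ S, ¬ (l : ℤ) ∣ D) : Tendsto (fun y : ℝ => FS S ε D y / (y : ℂ)) atTop (𝓝 0) := by
  obtain ⟨y0, h⟩ := FS_SW ε 1 S hS hε 1
  rw [tendsto_zero_iff_norm_tendsto_zero]
  have h1 : Tendsto (fun y : ℝ => 20 / Real.log y) atTop (𝓝 0) := tendsto_const_nhds.div_atTop Real.tendsto_log_atTop
  have ev1 : ∀ᶠ y : ℝ in atTop, 4 * (D.natAbs : ℝ) ≤ Real.log y := Real.tendsto_log_atTop.eventually_ge_atTop _
  refine squeeze_zero' (Eventually.of_forall fun y => norm_nonneg _) ?_ h1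
  filter_upwards [ev1, eventually_ge_atTop y0, eventually_gt_atTop 0] with y h2 h3 h4
  have h5 := h y h3 D hD hc (by rw [pow_one]; exact h2)
  rw [pow_one] at h5
  rw [norm_div, Complex.norm_real, Real.norm_of_nonneg h4.le, div_le_iff₀ h4]
  refine h5.trans (le_of_eq ?_)
  ring

lemma FS_base (ε : ℕ → ℤ) (m : ℤ) (hm : m ≠ 0) :
    Tendsto (fun y : ℝ => FS ∅ ε (m ^ 2) y / (y : ℂ)) atTop (𝓝 1) := by
  classical
  have hth : Tendsto (fun y : ℝ => ((Chebyshev.theta y / y : ℝ) : ℂ)) atTop (𝓝 1) := by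
    have h := (Complex.continuous_ofReal.tendsto 1).comp Pool.Agent.Cov.PNT.theta_div_tendsto
    rw [Complex.ofReal_one] at h
    exact h
  -- the difference is bounded
  obtain ⟨C, hC⟩ : ∃ C : ℝ, C = ∑ p ∈ insert 2 m.natAbs.primeFactors, Real.log (p : ℝ) := ⟨_, rfl⟩
  have hdiff : ∀ y : ℝ, ‖FS ∅ ε (m ^ 2) y - (Chebyshev.theta y : ℂ)‖ ≤ C := by
    intro y
    have e1 : (Chebyshev.theta y : ℂ) = ∑ p ∈ Finset.Icc 1 ⌊y⌋₊, if p.Prime then ((Real.log p : ℝ) : ℂ) else 0 := by
      unfold Chebyshev.theta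
      rw [Finset.sum_filter]
      push_cast
      refine Finset.sum_congr ?_ fun p _ => ?_
      · ext p
        simp only [Finset.mem_Ioc, Finset.mem_Icc]
        omega
      · split_ifs <;> simp
    rw [e1]
    unfold FS
    rw [← Finset.sum_sub_distrib]
    have h1 : ∀ p ∈ Finset.Icc 1 ⌊y⌋₊, ‖(if ∀ l ∈ (∅ : Finset ℕ), jacobiSym (l : ℤ) p = ε l then
        (Pool.Agent.Helper368_LD.lp p : ℂ) * ((jacobiSym (m ^ 2) p : ℤ) : ℂ) else 0) -
        (if p.Prime then ((Real.log p : ℝ) : ℂ) else 0)‖ ≤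
        if p ∈ insert 2 m.natAbs.primeFactors then Real.log (p : ℝ) else 0 := by
      intro p _
      rw [if_pos (fun l hl => absurd hl (Finset.notMem_empty _))]
      have hlog : 0 ≤ Real.log (p : ℝ) := Real.log_natCast_nonneg p
      have hR : 0 ≤ (if p ∈ insert 2 m.natAbs.primeFactors then Real.log (p : ℝ) else 0) := by
        split_ifs
        · exact hlog
        · exact le_rfl
      unfold Pool.Agent.Helper368_LD.lp
      by_cases hp : p.Prime
      · by_cases h2 : p = 2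
        · rw [if_neg (fun h => h.2 h2), if_pos hp, if_pos (by rw [h2]; exact Finset.mem_insert_self _ _)]
          simp only [Complex.ofReal_zero, zero_mul, zero_sub, norm_neg, Complex.norm_real]
          exact (Real.norm_of_nonneg hlog).le
        · rw [if_pos ⟨hp, h2⟩, if_pos hp]
          have e2 : jacobiSym (m ^ 2) p = jacobiSym m p ^ 2 := jacobiSym.pow_left _ _ _
          by_cases hd : (p : ℤ) ∣ m
          · have h3 : p ∈ insert 2 m.natAbs.primeFactors := by
              refine Finset.mem_insert_of_mem (Nat.mem_primeFactors.2 ⟨hp, ?_, Int.natAbs_ne_zero.2 hm⟩)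
              exact Int.natCast_dvd.1 hd
            have hne : NeZero p := ⟨hp.ne_zero⟩
            have e3 : jacobiSym m p = 0 := by
              rw [jacobiSym.eq_zero_iff_not_coprime]
              intro hc
              have h4 : (p : ℤ) ∣ (m.gcd p : ℤ) := Int.dvd_coe_gcd hd dvd_rfl
              rw [hc] at h4
              have h5 := Int.le_of_dvd (by norm_num) h4
              have := hp.two_le
              push_cast at h5
              omega
            rw [if_pos h3, e2, e3]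
            simp only [ne_eq, OfNat.ofNat_ne_zero, not_false_eq_true, zero_pow, Int.cast_zero, mul_zero, zero_sub,
              norm_neg, Complex.norm_real]
            exact (Real.norm_of_nonneg hlog).le
          · have e3 : jacobiSym m p ^ 2 = 1 := by
              apply jacobiSym.sq_one
              have h4 : IsCoprime (p : ℤ) m := ((Nat.prime_iff_prime_int.1 hp).coprime_iff_not_dvd).2 hd
              exact Int.isCoprime_iff_gcd_eq_one.1 h4.symm
            rw [e2, e3]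
            simp only [Int.cast_one, mul_one, sub_self, norm_zero]
            exact hR
      · rw [if_neg (fun h => hp h.1), if_neg hp]
        simp only [Complex.ofReal_zero, zero_mul, sub_zero, norm_zero]
        exact hR
    refine (norm_sum_le _ _).trans ((Finset.sum_le_sum h1).trans ?_)
    rw [← Finset.sum_filter, hC]
    exact Finset.sum_le_sum_of_subset_of_nonneg (fun p hp => (Finset.mem_filter.1 hp).2) fun p _ _ =>
      Real.log_natCast_nonneg p
  have hz : Tendsto (fun y : ℝ => (FS ∅ ε (m ^ 2) y - (Chebyshev.theta y : ℂ)) / (y : ℂ)) atTop (𝓝 0) := by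
    rw [tendsto_zero_iff_norm_tendsto_zero]
    have h1 : Tendsto (fun y : ℝ => C / y) atTop (𝓝 0) := tendsto_const_nhds.div_atTop tendsto_id
    refine squeeze_zero' (Eventually.of_forall fun y => norm_nonneg _) ?_ h1
    filter_upwards [eventually_gt_atTop 0] with y hy
    rw [norm_div, Complex.norm_real, Real.norm_of_nonneg hy.le]
    exact div_le_div_of_nonneg_right (hdiff y) hy.le
  have h := hz.add hth
  rw [zero_add] at h
  refine h.congr' ?_
  filter_upwards [eventually_gt_atTop 0] with y hy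
  have hy0 : (y : ℂ) ≠ 0 := by exact_mod_cast hy.ne'
  push_cast
  field_simp
  ring

lemma FS_sq_lim (ε : ℕ → ℤ) (S : Finset ℕ) : (∀ l ∈ S, l.Prime) → (∀ l ∈ S, ε l = 1 ∨ ε l = -1) → ∀ m : ℤ, m ≠ 0 →
    (∀ l ∈ S, ¬ (l : ℤ) ∣ m) → Tendsto (fun y : ℝ => FS S ε (m ^ 2) y / (y : ℂ)) atTop (𝓝 (1 / 2 ^ S.card)) := by
  classical
  refine Finset.induction_on S ?_ ?_
  · intro _ _ m hm _
    have := FS_base ε m hm
    simpa using this
  · intro l S hl ih hS hε m hm hc
    have hS' : ∀ n ∈ S, n.Prime := fun n hn => hS n (Finset.mem_insert_of_mem hn)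
    have hε' : ∀ n ∈ S, ε n = 1 ∨ ε n = -1 := fun n hn => hε n (Finset.mem_insert_of_mem hn)
    have hlp : l.Prime := hS l (Finset.mem_insert_self _ _)
    have hlz : Prime (l : ℤ) := Nat.prime_iff_prime_int.1 hlp
    have hl0 : (l : ℤ) ≠ 0 := by exact_mod_cast hlp.ne_zero
    have hml : ∀ n ∈ S, ¬ (n : ℤ) ∣ (l : ℤ) := by
      intro n hn hd
      have h1 : n ∣ l := by exact_mod_cast hd
      have h2 := (Nat.prime_dvd_prime_iff_eq (hS' n hn) hlp).1 h1
      rw [h2] at hn
      exact hl hn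
    have hpr : ∀ n ∈ S, Prime (n : ℤ) := fun n hn => Nat.prime_iff_prime_int.1 (hS' n hn)
    have c1 : ∀ n ∈ S, ¬ (n : ℤ) ∣ m * l := by
      intro n hn hd
      rcases (hpr n hn).dvd_or_dvd hd with h1 | h1
      · exact hc n (Finset.mem_insert_of_mem hn) h1
      · exact hml n hn h1
    have c2 : ∀ n ∈ S, ¬ (n : ℤ) ∣ m ^ 2 * l := by
      intro n hn hd
      rcases (hpr n hn).dvd_or_dvd hd with h1 | h1
      · exact hc n (Finset.mem_insert_of_mem hn) ((hpr n hn).dvd_of_dvd_pow h1)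
      · exact hml n hn h1
    have hlm : ¬ (l : ℤ) ∣ m := hc l (Finset.mem_insert_self _ _)
    have c3 : ¬ IsSquare (m ^ 2 * l) := by
      rintro ⟨b, hb⟩
      have h1 : (l : ℤ) ∣ b := by
        have : (l : ℤ) ∣ b * b := by
          rw [← hb]
          exact Dvd.intro_left (m ^ 2) rfl
        rcases hlz.dvd_or_dvd this with h | h <;> exact h
      obtain ⟨d, rfl⟩ := h1
      apply hlm
      apply hlz.dvd_of_dvd_pow (n := 2)
      refine ⟨d * d, ?_⟩
      have h2 : (m ^ 2 - l * (d * d)) * l = 0 := by linear_combination hb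
      rcases mul_eq_zero.1 h2 with h3 | h3
      · linarith
      · exact absurd h3 hl0
    have t1 := ih hS' hε' (m * l) (mul_ne_zero hm hl0) c1
    have t2 := FS_nsq_lim S ε hS' hε' (m ^ 2 * l) c3 c2
    have t3 := (t1.add (t2.const_mul (ε l : ℂ))).const_mul (1 / 2 : ℂ)
    have e1 : (1 / 2 : ℂ) * (1 / 2 ^ S.card + (ε l : ℂ) * 0) = 1 / 2 ^ (insert l S).card := by
      rw [Finset.card_insert_of_notMem hl, pow_succ]
      field_simp
      ring
    rw [e1] at t3
    refine t3.congr fun y => ?_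
    rw [FS_insert (hε l (Finset.mem_insert_self _ _)), show m ^ 2 * (l : ℤ) ^ 2 = (m * l) ^ 2 by ring]
    ring

lemma PF_sum_one (S : Finset ℕ) (ε : ℕ → ℤ) {s : ℤ} (hs : s = 1 ∨ s = -1) {X : ℝ} (hX : 1 ≤ X) :
    ((MS S ε s X : ℝ) : ℂ) = 1 / 2 * (FS S ε 1 ((⌈X⌉₊ - 1 : ℕ) : ℝ) + s * FS S ε (-1) ((⌈X⌉₊ - 1 : ℕ) : ℝ)) := by
  have h := PF_FS S ε hs hX 1
  rw [Nat.cast_one] at h
  rw [← h]
  unfold MS
  push_cast
  refine Finset.sum_congr rfl fun p _ => ?_
  rw [jacobiSym.one_left]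
  simp

/-- the main term -/
theorem MS_lim (S : Finset ℕ) (ε : ℕ → ℤ) (hS : ∀ l ∈ S, l.Prime) (hε : ∀ l ∈ S, ε l = 1 ∨ ε l = -1) (s : ℤ)
    (hs : s = 1 ∨ s = -1) : Tendsto (fun X : ℝ => MS S ε s X / X) atTop (𝓝 (1 / 2 ^ (S.card + 1))) := by
  have h1 : ∀ l ∈ S, ¬ (l : ℤ) ∣ 1 := by
    intro l hl hd
    have h2 := Int.le_of_dvd (by norm_num) hd
    have := (hS l hl).two_le
    omega
  have t1 := FS_sq_lim ε S hS hε 1 one_ne_zero h1
  have t2 := FS_nsq_lim S ε hS hε (-1) (by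
    rintro ⟨a, ha⟩
    nlinarith [mul_self_nonneg a]) (fun l hl hd => h1 l hl (by
      have := (dvd_neg (a := (l : ℤ)) (b := 1)).1 hd
      exact this))
  have e0 : ((1 : ℤ) ^ 2) = 1 := by norm_num
  rw [e0] at t1
  have t3 := (t1.add (t2.const_mul (s : ℂ))).const_mul (1 / 2 : ℂ)
  have e1 : (1 / 2 : ℂ) * (1 / 2 ^ S.card + (s : ℂ) * 0) = ((1 / 2 ^ (S.card + 1) : ℝ) : ℂ) := by
    push_cast
    rw [pow_succ]
    field_simp
    ring
  rw [e1] at t3
  -- the points
  have hy : Tendsto (fun X : ℝ => ((⌈X⌉₊ - 1 : ℕ) : ℝ)) atTop atTop := by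
    refine tendsto_atTop_mono' atTop (f₁ := fun X : ℝ => X - 1) ?_ (tendsto_atTop_add_const_right _ (-1) tendsto_id)
    filter_upwards [eventually_ge_atTop 1] with X hX
    have hc : 1 ≤ ⌈X⌉₊ := Nat.one_le_iff_ne_zero.2 (by
      rw [Ne, Nat.ceil_eq_zero]
      linarith)
    rw [Nat.cast_sub hc]
    have := Nat.le_ceil X
    push_cast
    linarith
  have hr : Tendsto (fun X : ℝ => ((⌈X⌉₊ - 1 : ℕ) : ℝ) / X) atTop (𝓝 1) := by
    have l1 : Tendsto (fun X : ℝ => 1 - 1 / X) atTop (𝓝 1) := by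
      have h0 : Tendsto (fun X : ℝ => 1 / X) atTop (𝓝 0) := tendsto_const_nhds.div_atTop tendsto_id
      have h := (tendsto_const_nhds (x := (1 : ℝ))).sub h0
      rw [sub_zero] at h
      exact h
    refine tendsto_of_tendsto_of_tendsto_of_le_of_le' l1 tendsto_const_nhds ?_ ?_
    · filter_upwards [eventually_ge_atTop 1] with X hX
      have hc : 1 ≤ ⌈X⌉₊ := Nat.one_le_iff_ne_zero.2 (by
        rw [Ne, Nat.ceil_eq_zero]
        linarith)
      have hX0 : 0 < X := by linarith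
      rw [Nat.cast_sub hc, le_div_iff₀ hX0, sub_mul, div_mul_cancel₀ _ hX0.ne']
      have := Nat.le_ceil X
      push_cast
      linarith
    · filter_upwards [eventually_ge_atTop 1] with X hX
      have hc : 1 ≤ ⌈X⌉₊ := Nat.one_le_iff_ne_zero.2 (by
        rw [Ne, Nat.ceil_eq_zero]
        linarith)
      have hX0 : 0 < X := by linarith
      rw [Nat.cast_sub hc, div_le_one hX0]
      have := (Nat.ceil_lt_add_one hX0.le).le
      push_cast
      linarith
  have t4 := (t3.comp hy).mul ((Complex.continuous_ofReal.tendsto 1).comp hr)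
  rw [Complex.ofReal_one, mul_one] at t4
  have t5 : Tendsto (fun X : ℝ => ((MS S ε s X / X : ℝ) : ℂ)) atTop (𝓝 ((1 / 2 ^ (S.card + 1) : ℝ) : ℂ)) := by
    refine t4.congr' ?_
    filter_upwards [eventually_ge_atTop 3] with X hX
    have hy0 : ((((⌈X⌉₊ - 1 : ℕ) : ℝ) : ℝ) : ℂ) ≠ 0 := by
      have h3 : 2 ≤ ⌈X⌉₊ - 1 := by
        have : (3 : ℝ) ≤ ⌈X⌉₊ := hX.trans (Nat.le_ceil X)
        have : 3 ≤ ⌈X⌉₊ := by exact_mod_cast this
        omega
      exact_mod_cast (by omega : ⌈X⌉₊ - 1 ≠ 0)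
    have hX0 : (X : ℂ) ≠ 0 := by exact_mod_cast (by linarith : X ≠ 0)
    rw [Complex.ofReal_div, PF_sum_one S ε hs (by linarith)]
    simp only [Function.comp_apply]
    rw [Complex.ofReal_div]
    generalize ((((⌈X⌉₊ - 1 : ℕ) : ℝ) : ℝ) : ℂ) = y at hy0 ⊢
    field_simp
  have t6 := (Complex.continuous_re.tendsto _).comp t5
  rw [Complex.ofReal_re] at t6
  refine t6.congr fun X => ?_
  simp only [Function.comp_apply]
  rw [Complex.ofReal_re]

end

end Pool.Agent.J4.H50.EG
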